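import Mathlib
import Pool.Agent.H21.CQ.Perf

/-!
# Unimodularity of `SL(n, ℝ)` and of the closed images of `SL(m, ℝ)`
-/

set_option autoImplicit false

open MeasureTheory Matrix

namespace Pool.Agent.H9.IH

theorem haar_right {G : Type} [Group G] [TopologicalSpace G] [IsTopologicalGroup G]
    [LocallyCompactSpace G] [T2Space G] [SecondCountableTopology G] [MeasurableSpace G]
    [BorelSpace G] (h1 : ∀ g : G, Measure.modularCharacter g = 1)
    (μ : Measure G) [μ.IsHaarMeasure] : μ.IsMulRightInvariant := by
  refine ⟨fun g => ?_⟩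
  have h2 := Measure.isMulLeftInvariant_eq_smul (Measure.map (fun x => x * g) μ) μ
  have h3 : Measure.modularCharacterFun g = 1 := h1 g
  rw [← Measure.modularCharacterFun_eq_haarScalarFactor μ g, h3, one_smul] at h2
  exact h2

theorem haar_inv {G : Type} [Group G] [TopologicalSpace G] [IsTopologicalGroup G]
    [LocallyCompactSpace G] [T2Space G] [SecondCountableTopology G] [MeasurableSpace G]
    [BorelSpace G] (h1 : ∀ g : G, Measure.modularCharacter g = 1)
    (μ : Measure G) [μ.IsHaarMeasure] : μ.IsInvInvariant := by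
  have := haar_right h1 μ
  have hfin : IsFiniteMeasureOnCompacts μ.inv := by
    refine ⟨fun K hK => ?_⟩
    rw [Measure.inv_apply]
    exact hK.inv.measure_lt_top
  have h2 := Measure.isMulLeftInvariant_eq_smul μ.inv μ
  set c := Measure.haarScalarFactor μ.inv μ with hc
  have K : TopologicalSpace.PositiveCompacts G := Classical.arbitrary _
  set S : Set G := (K : Set G) ∪ (K : Set G)⁻¹ with hS
  have hSc : IsCompact S := K.isCompact.union K.isCompact.inv
  have hSi : S⁻¹ = S := by
    rw [hS, Set.union_inv, inv_inv, Set.union_comm]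
  have hS0 : μ S ≠ 0 := by
    have h4 : 0 < μ (K : Set G) := by
      refine lt_of_lt_of_le (isOpen_interior.measure_pos μ K.interior_nonempty) ?_
      exact measure_mono interior_subset
    exact (h4.trans_le (measure_mono Set.subset_union_left)).ne'
  have hSt : μ S ≠ ⊤ := hSc.measure_lt_top.ne
  have h3 : μ.inv S = μ S := by rw [Measure.inv_apply, hSi]
  have h5 : μ.inv S = (c : ENNReal) * μ S := by
    conv_lhs => rw [h2]
    rw [Measure.smul_apply, ENNReal.smul_def, smul_eq_mul]
  have h6 : (c : ENNReal) = 1 := by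
    have h7 : (c : ENNReal) * μ S = 1 * μ S := by rw [← h5, h3, one_mul]
    exact (ENNReal.mul_left_inj hS0 hSt).1 h7
  have h8 : c = 1 := by exact_mod_cast h6
  refine ⟨?_⟩
  rw [h2, h8, one_smul]

private lemma lc (n : ℕ) : LocallyCompactSpace (SpecialLinearGroup (Fin n) ℝ) := by
  have : LocallyCompactSpace (Matrix (Fin n) (Fin n) ℝ) :=
    inferInstanceAs (LocallyCompactSpace (Fin n → Fin n → ℝ))
  exact SpecialLinearGroup.isClosedEmbedding_val.locallyCompactSpace

private lemma t2 (n : ℕ) : T2Space (SpecialLinearGroup (Fin n) ℝ) :=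
  SpecialLinearGroup.isClosedEmbedding_val.isEmbedding.t2Space

private lemma sc (n : ℕ) : SecondCountableTopology (SpecialLinearGroup (Fin n) ℝ) := by
  have : SecondCountableTopology (Matrix (Fin n) (Fin n) ℝ) :=
    inferInstanceAs (SecondCountableTopology (Fin n → Fin n → ℝ))
  exact (SpecialLinearGroup.isClosedEmbedding_val
    (R := ℝ) (n := Fin n)).isEmbedding.secondCountableTopology

/-- the modular character composed with a homomorphism from `SL(m, ℝ)` -/
private lemma mod_comp {G : Type} [Group G] [TopologicalSpace G] [IsTopologicalGroup G]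
    [LocallyCompactSpace G] (m : ℕ) (φ : SpecialLinearGroup (Fin m) ℝ →* G)
    (x : SpecialLinearGroup (Fin m) ℝ) : Measure.modularCharacter (φ x) = 1 := by
  have h := Pool.Agent.H21.CQ.chi_eq_one
    ((NNReal.toRealHom : NNReal →* ℝ).comp (Measure.modularCharacter.comp φ)) (fun y => by
      have h1 : 0 < Measure.modularCharacterFun (φ y) := Measure.modularCharacterFun_pos _
      exact_mod_cast h1) x
  have h2 : ((Measure.modularCharacter (φ x) : NNReal) : ℝ) = 1 := h
  exact_mod_cast h2

theorem sl_right (n : ℕ) [MeasurableSpace (SpecialLinearGroup (Fin n) ℝ)]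
    [BorelSpace (SpecialLinearGroup (Fin n) ℝ)]
    (μ : Measure (SpecialLinearGroup (Fin n) ℝ)) [μ.IsHaarMeasure] : μ.IsMulRightInvariant := by
  have := lc n
  have := t2 n
  have := sc n
  exact haar_right (fun g => mod_comp n (MonoidHom.id _) g) μ

theorem range_inv (m n : ℕ) [MeasurableSpace (SpecialLinearGroup (Fin n) ℝ)]
    [BorelSpace (SpecialLinearGroup (Fin n) ℝ)]
    (ψ : SpecialLinearGroup (Fin m) ℝ →* SpecialLinearGroup (Fin n) ℝ)
    (hcl : IsClosed (ψ.range : Set (SpecialLinearGroup (Fin n) ℝ)))
    (ν : Measure ψ.range) [ν.IsHaarMeasure] : ν.IsInvInvariant := by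
  have := lc n
  have := t2 n
  have := sc n
  have h1 : LocallyCompactSpace ψ.range := hcl.isClosedEmbedding_subtypeVal.locallyCompactSpace
  have h2 : SecondCountableTopology ψ.range :=
    (Topology.IsEmbedding.subtypeVal (p := fun x => x ∈ ψ.range)).secondCountableTopology
  refine haar_inv (fun g => ?_) ν
  obtain ⟨x, hx⟩ := ψ.rangeRestrict_surjective g
  rw [← hx]
  exact mod_comp m ψ.rangeRestrict x

end Pool.Agent.H9.IH
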