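import Mathlib
import Pool.Agent.H9.IH.Uni

/-!
# The closure of the image of `SL(m, ℝ)`
-/

set_option autoImplicit false

open MeasureTheory Matrix
open scoped Pointwise

namespace Pool.Agent.H9.IH

theorem pd_closure {G : Type} [Group G] [TopologicalSpace G] [IsTopologicalGroup G]
    [LocallyCompactSpace G] (H Γ₀ : Subgroup G)
    (hpd : ∀ K : Set G, IsCompact K → {γ : Γ₀ | ∃ g ∈ K, ∃ h ∈ H, (γ : G) * g * h ∈ K}.Finite)
    (K : Set G) (hK : IsCompact K) :
    {γ : Γ₀ | ∃ g ∈ K, ∃ h ∈ H.topologicalClosure, (γ : G) * g * h ∈ K}.Finite := by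
  obtain ⟨V, hV, hV1⟩ := exists_compact_mem_nhds (1 : G)
  refine (hpd (K * V) (hK.mul hV)).subset ?_
  rintro γ ⟨g, hg, h, hh, hgh⟩
  have h1 : h ∈ closure (H : Set G) := hh
  have h2 : {x : G | h⁻¹ * x ∈ V} ∈ nhds h := by
    have hc : Continuous fun x : G => h⁻¹ * x := by fun_prop
    have h3 : V ∈ nhds (h⁻¹ * h) := by rw [inv_mul_cancel]; exact hV1
    exact hc.continuousAt.preimage_mem_nhds h3
  obtain ⟨h', hh', hh'H⟩ := mem_closure_iff_nhds.1 h1 _ h2
  refine ⟨g, ⟨g, hg, 1, mem_of_mem_nhds hV1, mul_one g⟩, h', hh'H,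
    ⟨γ * g * h, hgh, h⁻¹ * h', hh', ?_⟩⟩
  show (γ : G) * g * h * (h⁻¹ * h') = (γ : G) * g * h'
  group

private lemma lc' (n : ℕ) : LocallyCompactSpace (SpecialLinearGroup (Fin n) ℝ) := by
  have : LocallyCompactSpace (Matrix (Fin n) (Fin n) ℝ) :=
    inferInstanceAs (LocallyCompactSpace (Fin n → Fin n → ℝ))
  exact SpecialLinearGroup.isClosedEmbedding_val.locallyCompactSpace

private lemma t2' (n : ℕ) : T2Space (SpecialLinearGroup (Fin n) ℝ) :=
  SpecialLinearGroup.isClosedEmbedding_val.isEmbedding.t2Space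

private lemma sc' (n : ℕ) : SecondCountableTopology (SpecialLinearGroup (Fin n) ℝ) := by
  have : SecondCountableTopology (Matrix (Fin n) (Fin n) ℝ) :=
    inferInstanceAs (SecondCountableTopology (Fin n → Fin n → ℝ))
  exact (SpecialLinearGroup.isClosedEmbedding_val
    (R := ℝ) (n := Fin n)).isEmbedding.secondCountableTopology

private lemma mod_comp' {G : Type} [Group G] [TopologicalSpace G] [IsTopologicalGroup G]
    [LocallyCompactSpace G] (m : ℕ) (φ : SpecialLinearGroup (Fin m) ℝ →* G)
    (x : SpecialLinearGroup (Fin m) ℝ) : Measure.modularCharacter (φ x) = 1 := by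
  have h := Pool.Agent.H21.CQ.chi_eq_one
    ((NNReal.toRealHom : NNReal →* ℝ).comp (Measure.modularCharacter.comp φ)) (fun y => by
      have h1 : 0 < Measure.modularCharacterFun (φ y) := Measure.modularCharacterFun_pos _
      exact_mod_cast h1) x
  have h2 : ((Measure.modularCharacter (φ x) : NNReal) : ℝ) = 1 := h
  exact_mod_cast h2

private lemma mod_closure {G : Type} [Group G] [TopologicalSpace G] [IsTopologicalGroup G]
    [LocallyCompactSpace G] [T2Space G] [SecondCountableTopology G] (D : Set G)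
    (hD : ∀ x ∈ D, Measure.modularCharacter x = 1) (g : G) (hg : g ∈ closure D) :
    Measure.modularCharacter g = 1 := by
  borelize G
  set μ : Measure G := Measure.haar with hμ
  obtain ⟨⟨f, hf⟩, hfc, hf0, hf1⟩ : ∃ f : C(G, ℝ), HasCompactSupport f ∧ 0 ≤ f ∧ f 1 ≠ 0 :=
    exists_continuous_nonneg_pos 1
  have hI : ∫ x, f x ∂μ ≠ 0 :=
    ne_of_gt (hf.integral_pos_of_hasCompactSupport_nonneg_nonzero hfc hf0 hf1)
  have hF : Continuous fun x : G => ∫ y, f (y⁻¹ * x) ∂μ.inv :=
    continuous_integral_apply_inv_mul hf hfc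
  have hval : ∀ x : G, ∫ y, f (y⁻¹ * x) ∂μ.inv =
      ((Measure.modularCharacter x : NNReal) : ℝ) * ∫ y, f y ∂μ := by
    intro x
    have h1 : ∫ y, f (y⁻¹ * x) ∂μ.inv = ∫ y, f (y * x) ∂μ := by
      have hc : Continuous fun y : G => f (y⁻¹ * x) := by fun_prop
      rw [Measure.inv, integral_map continuous_inv.aemeasurable hc.aestronglyMeasurable]
      simp only [inv_inv]
    have h2 : ∫ y, f (y * x) ∂μ = ∫ y, f y ∂(Measure.map (fun y => y * x) μ) :=
      (integral_map (continuous_mul_const x).aemeasurable hf.aestronglyMeasurable).symm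
    have h3 : Measure.map (fun y => y * x) μ = Measure.modularCharacterFun x • μ := by
      rw [Measure.modularCharacterFun_eq_haarScalarFactor μ x]
      exact Measure.isMulLeftInvariant_eq_smul _ μ
    rw [h1, h2, h3, integral_smul_nnreal_measure]
    rfl
  have hone : ∀ x : G, Measure.modularCharacter x = 1 ↔
      ∫ y, f (y⁻¹ * x) ∂μ.inv = ∫ y, f y ∂μ := by
    intro x
    rw [hval]
    constructor
    · intro h
      rw [h, NNReal.coe_one, one_mul]
    · intro h
      have h4 : ((Measure.modularCharacter x : NNReal) : ℝ) = 1 := by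
        apply mul_right_cancel₀ hI
        rw [h, one_mul]
      exact_mod_cast h4
  have hclosed : IsClosed {x : G | ∫ y, f (y⁻¹ * x) ∂μ.inv = ∫ y, f y ∂μ} :=
    isClosed_eq hF continuous_const
  exact (hone g).2 (closure_minimal (fun x hx => (hone x).1 (hD x hx)) hclosed hg)

theorem closure_inv (m n : ℕ) [MeasurableSpace (SpecialLinearGroup (Fin n) ℝ)]
    [BorelSpace (SpecialLinearGroup (Fin n) ℝ)]
    (ψ : SpecialLinearGroup (Fin m) ℝ →* SpecialLinearGroup (Fin n) ℝ)
    (ν : Measure ψ.range.topologicalClosure) [ν.IsHaarMeasure] : ν.IsInvInvariant := by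
  have := lc' n
  have := t2' n
  have := sc' n
  have hcl : IsClosed (ψ.range.topologicalClosure : Set (SpecialLinearGroup (Fin n) ℝ)) :=
    Subgroup.isClosed_topologicalClosure _
  have h1 : LocallyCompactSpace ψ.range.topologicalClosure :=
    hcl.isClosedEmbedding_subtypeVal.locallyCompactSpace
  have h2 : SecondCountableTopology ψ.range.topologicalClosure :=
    (Topology.IsEmbedding.subtypeVal
      (p := fun x => x ∈ ψ.range.topologicalClosure)).secondCountableTopology
  refine haar_inv (fun g => ?_) ν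
  set φ : SpecialLinearGroup (Fin m) ℝ →* ψ.range.topologicalClosure :=
    (Subgroup.inclusion (Subgroup.le_topologicalClosure ψ.range)).comp ψ.rangeRestrict with hφ
  have hsub : ∀ y ∈ Set.range φ, Measure.modularCharacter y = 1 := by
    rintro _ ⟨x, rfl⟩
    exact mod_comp' m φ x
  have hdense : g ∈ closure (Set.range φ) := by
    rw [closure_subtype]
    have h3 : ((↑) : ψ.range.topologicalClosure → SpecialLinearGroup (Fin n) ℝ) '' Set.range φ =
        (ψ.range : Set (SpecialLinearGroup (Fin n) ℝ)) := by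
      ext y
      constructor
      · rintro ⟨_, ⟨x, rfl⟩, rfl⟩
        exact ⟨x, rfl⟩
      · rintro ⟨x, rfl⟩
        exact ⟨φ x, ⟨x, rfl⟩, rfl⟩
    rw [h3]
    exact g.2
  exact mod_closure _ hsub g hdense

end Pool.Agent.H9.IH
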