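import Mathlib

/-!
# The exchange identity for a discrete group acting on the left and a subgroup on the right
-/

set_option autoImplicit false

open MeasureTheory
open scoped ENNReal

namespace Pool.Agent.H9.IH

/-- expansion of the two sides of the exchange identity -/
private theorem expand {G : Type} [Group G] [TopologicalSpace G] [IsTopologicalGroup G]
    [SecondCountableTopology G] [MeasurableSpace G] [BorelSpace G]
    (μ : Measure G) [SFinite μ] (H : Subgroup G) (ν : Measure H) [SFinite ν]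
    (Γ : Subgroup G) [Countable Γ] (S : Set G)
    (f₁ f₂ : G → ℝ≥0∞) (h₁ : Measurable f₁) (h₂ : Measurable f₂) :
    ∫⁻ g in S, f₁ g * ∑' γ : Γ, ∫⁻ h : H, f₂ (γ * g * h) ∂ν ∂μ =
      ∑' γ : Γ, ∫⁻ h : H, ∫⁻ g in S, f₁ g * f₂ (γ * g * h) ∂μ ∂ν := by
  have hm : ∀ γ : Γ, Measurable fun p : G × H => f₂ (γ * p.1 * p.2) := fun γ =>
    h₂.comp ((measurable_const.mul measurable_fst).mul (measurable_subtype_coe.comp measurable_snd))
  have hmm : ∀ γ : Γ, Measurable fun p : G × H => f₁ p.1 * f₂ (γ * p.1 * p.2) := fun γ =>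
    (h₁.comp measurable_fst).mul (hm γ)
  have e1 : ∀ g : G, f₁ g * ∑' γ : Γ, ∫⁻ h : H, f₂ (γ * g * h) ∂ν =
      ∑' γ : Γ, ∫⁻ h : H, f₁ g * f₂ (γ * g * h) ∂ν := by
    intro g
    rw [← ENNReal.tsum_mul_left]
    refine tsum_congr fun γ => ?_
    exact (lintegral_const_mul _ ((hm γ).comp measurable_prodMk_left)).symm
  simp only [e1]
  rw [lintegral_tsum fun γ => (hmm γ).lintegral_prod_right'.aemeasurable]
  refine tsum_congr fun γ => ?_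
  exact lintegral_lintegral_swap (hmm γ).aemeasurable

/-- the substitution `g ↦ γ⁻¹ g h⁻¹` -/
private theorem subst {G : Type} [Group G] [TopologicalSpace G] [IsTopologicalGroup G]
    [SecondCountableTopology G] [MeasurableSpace G] [BorelSpace G]
    (μ : Measure G) [μ.IsMulLeftInvariant] [μ.IsMulRightInvariant]
    (S : Set G) (hS : MeasurableSet S) (γ h : G)
    (hSγ : ∀ g, γ * g ∈ S ↔ g ∈ S) (hSh : ∀ g, g * h ∈ S ↔ g ∈ S)
    (f₁ f₂ : G → ℝ≥0∞) :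
    ∫⁻ g in S, f₁ g * f₂ (γ * g * h) ∂μ = ∫⁻ g in S, f₂ g * f₁ (γ⁻¹ * g * h⁻¹) ∂μ := by
  rw [← lintegral_indicator hS, ← lintegral_indicator hS]
  rw [← lintegral_mul_left_eq_self (μ := μ)
    (fun g => S.indicator (fun g => f₂ g * f₁ (γ⁻¹ * g * h⁻¹)) g) γ,
    ← lintegral_mul_right_eq_self (μ := μ)
    (fun g => S.indicator (fun g => f₂ g * f₁ (γ⁻¹ * g * h⁻¹)) (γ * g)) h]
  refine lintegral_congr fun g => ?_
  have hg : γ * (g * h) ∈ S ↔ g ∈ S := (hSγ _).trans (hSh g)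
  by_cases hgS : g ∈ S
  · rw [Set.indicator_of_mem hgS, Set.indicator_of_mem (hg.2 hgS), mul_comm (f₁ g)]
    congr 2
    · group
    · group
  · rw [Set.indicator_of_notMem hgS, Set.indicator_of_notMem (fun h => hgS (hg.1 h))]

theorem exchange {G : Type} [Group G] [TopologicalSpace G] [IsTopologicalGroup G]
    [SecondCountableTopology G] [MeasurableSpace G] [BorelSpace G]
    (μ : Measure G) [SFinite μ] [μ.IsMulLeftInvariant] [μ.IsMulRightInvariant]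
    (H : Subgroup G) (ν : Measure H) [SFinite ν] [ν.IsInvInvariant]
    (Γ : Subgroup G) [Countable Γ] (S : Set G) (hS : MeasurableSet S)
    (hSΓ : ∀ γ ∈ Γ, ∀ g, γ * g ∈ S ↔ g ∈ S) (hSH : ∀ h ∈ H, ∀ g, g * h ∈ S ↔ g ∈ S)
    (f₁ f₂ : G → ℝ≥0∞) (h₁ : Measurable f₁) (h₂ : Measurable f₂) :
    ∫⁻ g in S, f₁ g * ∑' γ : Γ, ∫⁻ h : H, f₂ (γ * g * h) ∂ν ∂μ =
      ∫⁻ g in S, f₂ g * ∑' γ : Γ, ∫⁻ h : H, f₁ (γ * g * h) ∂ν ∂μ := by
  rw [expand μ H ν Γ S f₁ f₂ h₁ h₂, expand μ H ν Γ S f₂ f₁ h₂ h₁]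
  have e : ∀ γ : Γ, ∫⁻ h : H, ∫⁻ g in S, f₁ g * f₂ (γ * g * h) ∂μ ∂ν =
      ∫⁻ h : H, ∫⁻ g in S, f₂ g * f₁ ((γ⁻¹ : Γ) * g * h) ∂μ ∂ν := by
    intro γ
    rw [← lintegral_inv_eq_self (μ := ν)
      (fun h : H => ∫⁻ g in S, f₂ g * f₁ ((γ⁻¹ : Γ) * g * h) ∂μ)]
    refine lintegral_congr fun h => ?_
    have := subst μ S hS (γ : G) (h : G) (hSΓ γ γ.2) (hSH h h.2) f₁ f₂
    simpa only [InvMemClass.coe_inv] using this
  rw [tsum_congr e]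
  exact Equiv.tsum_eq (Equiv.inv Γ)
    (fun γ : Γ => ∫⁻ h : H, ∫⁻ g in S, f₂ g * f₁ (γ * g * h) ∂μ ∂ν)

theorem no_scaling {G : Type} [Group G] [TopologicalSpace G] [IsTopologicalGroup G]
    [SecondCountableTopology G] [MeasurableSpace G] [BorelSpace G]
    (μ : Measure G) [SFinite μ] [μ.IsMulLeftInvariant] [μ.IsMulRightInvariant]
    (H : Subgroup G) (ν : Measure H) [SFinite ν] [ν.IsInvInvariant]
    (Γ : Subgroup G) [Countable Γ] (S : Set G) (hS : MeasurableSet S) (hS0 : μ S ≠ 0)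
    (hSΓ : ∀ γ ∈ Γ, ∀ g, γ * g ∈ S ↔ g ∈ S) (hSH : ∀ h ∈ H, ∀ g, g * h ∈ S ↔ g ∈ S)
    (Φ : G → G) (hΦ : Measurable Φ) (hΦS : ∀ g ∈ S, Φ g ∈ S)
    (hΦe : ∀ γ ∈ Γ, ∀ h ∈ H, ∀ g ∈ S, Φ (γ * g * h) = γ * Φ g * h)
    (δ : ℝ≥0∞) (hδ : δ ≠ 1)
    (hscale : ∀ f : G → ℝ≥0∞, Measurable f →
      ∫⁻ g in S, f (Φ g) ∂μ = δ * ∫⁻ g in S, f g ∂μ)
    (κ : G → ℝ≥0∞) (hκ : Measurable κ)
    (hW : ∀ g ∈ S, ∑' γ : Γ, ∫⁻ h : H, κ (γ * g * h) ∂ν = 1)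
    (hfin : ∫⁻ g in S, κ g ∂μ ≠ ⊤) : False := by
  have h1 := exchange μ H ν Γ S hS hSΓ hSH (fun g => κ (Φ g)) κ (hκ.comp hΦ) hκ
  have e1 : ∫⁻ g in S, κ (Φ g) * ∑' γ : Γ, ∫⁻ h : H, κ (γ * g * h) ∂ν ∂μ =
      ∫⁻ g in S, κ (Φ g) ∂μ := by
    refine setLIntegral_congr_fun hS fun g hg => ?_
    simp only [hW g hg, mul_one]
  have e2 : ∫⁻ g in S, κ g * ∑' γ : Γ, ∫⁻ h : H, κ (Φ (γ * g * h)) ∂ν ∂μ =
      ∫⁻ g in S, κ g ∂μ := by
    refine setLIntegral_congr_fun hS fun g hg => ?_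
    have : ∑' γ : Γ, ∫⁻ h : H, κ (Φ (γ * g * h)) ∂ν = 1 := by
      rw [← hW (Φ g) (hΦS g hg)]
      refine tsum_congr fun γ => lintegral_congr fun h => ?_
      rw [hΦe γ γ.2 h h.2 g hg]
    simp only [this, mul_one]
  rw [e1, e2, hscale κ hκ] at h1
  have hI : ∫⁻ g in S, κ g ∂μ = 0 := by
    by_contra h0
    exact hδ ((ENNReal.mul_left_inj h0 hfin).1 (h1.trans (one_mul _).symm))
  have h2 := exchange μ H ν Γ S hS hSΓ hSH κ (fun _ => 1) hκ measurable_const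
  have e3 : ∫⁻ g in S, κ g * ∑' γ : Γ, ∫⁻ h : H, (fun _ : G => (1 : ℝ≥0∞)) (γ * g * h) ∂ν ∂μ =
      0 := by
    simp only
    rw [lintegral_mul_const _ hκ, hI, zero_mul]
  have e4 : ∫⁻ g in S, (fun _ : G => (1 : ℝ≥0∞)) g * ∑' γ : Γ, ∫⁻ h : H, κ (γ * g * h) ∂ν ∂μ =
      μ S := by
    rw [← setLIntegral_one]
    refine setLIntegral_congr_fun hS fun g hg => ?_
    simp only [hW g hg, mul_one]
  rw [e3, e4] at h2
  exact hS0 h2.symm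

end Pool.Agent.H9.IH
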