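import Mathlib

/-!
# The canonical complement given by the differential of a relative invariant
-/

set_option autoImplicit false

open MeasureTheory Matrix

namespace Pool.Agent.H9.IH

/-- determinant of an elementary matrix -/
private theorem det_aux {d : ℕ} (i j : Fin d) (t : ℝ) :
    (1 + Matrix.single i j t : Matrix (Fin d) (Fin d) ℝ).det = 1 + if i = j then t else 0 := by
  by_cases h : i = j
  · subst h
    have e : (1 + Matrix.single i i t : Matrix (Fin d) (Fin d) ℝ) =
        Matrix.diagonal (fun a => if a = i then 1 + t else 1) := by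
      ext a b
      by_cases hab : a = b
      · subst hab
        by_cases hai : a = i
        · subst hai; simp
        · have : ¬ (i = a) := fun h => hai h.symm
          simp [Matrix.single, hai, this]
      · rw [Matrix.add_apply, Matrix.one_apply_ne hab, Matrix.diagonal_apply_ne _ hab]
        have : ¬ (i = a ∧ i = b) := by
          rintro ⟨h1, h2⟩; exact hab (h1.symm.trans h2)
        simp [Matrix.single, this]
    rw [e, Matrix.det_diagonal, Finset.prod_ite_eq' Finset.univ i (fun _ => 1 + t)]
    simp
  · have := Matrix.det_transvection_of_ne i j h t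
    unfold Matrix.transvection at this
    rw [this, if_neg h, add_zero]

section
variable {n d k : ℕ} {P : (Fin d → Fin n → ℝ) → ℝ}

/-- right multiplication by a matrix -/
private noncomputable def rmul (A : Matrix (Fin d) (Fin d) ℝ) :
    (Fin d → Fin n → ℝ) →L[ℝ] (Fin d → Fin n → ℝ) :=
  LinearMap.toContinuousLinearMap
    { toFun := fun v j => ∑ i, A i j • v i
      map_add' := by
        intro v w; funext j
        simp [smul_add, Finset.sum_add_distrib]
      map_smul' := by
        intro c v; funext j
        simp only [Pi.smul_apply, RingHom.id_apply, Finset.smul_sum]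
        exact Finset.sum_congr rfl fun i _ => smul_comm _ _ _ }

private theorem rmul_apply (A : Matrix (Fin d) (Fin d) ℝ) (v : Fin d → Fin n → ℝ) :
    rmul A v = fun j => ∑ i, A i j • v i := rfl

/-- left multiplication by a matrix -/
private noncomputable def lmul (g : Matrix (Fin n) (Fin n) ℝ) :
    (Fin d → Fin n → ℝ) →L[ℝ] (Fin d → Fin n → ℝ) :=
  LinearMap.toContinuousLinearMap
    { toFun := fun v j => g *ᵥ v j
      map_add' := by
        intro v w; funext j
        simp [Matrix.mulVec_add]
      map_smul' := by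
        intro c v; funext j
        simp [Matrix.mulVec_smul] }

private theorem lmul_apply (g : Matrix (Fin n) (Fin n) ℝ) (v : Fin d → Fin n → ℝ) :
    lmul g v = fun j => g *ᵥ v j := rfl

private theorem hasD (hP : ContDiff ℝ 1 P) (v : Fin d → Fin n → ℝ) :
    HasFDerivAt P (fderiv ℝ P v) v :=
  (hP.differentiable (by norm_num) v).hasFDerivAt

/-- (a) -/
private theorem fd_single (hP : ContDiff ℝ 1 P)
    (hwt : ∀ (A : Matrix (Fin d) (Fin d) ℝ) (v : Fin d → Fin n → ℝ),
      P (fun j => ∑ i, A i j • v i) = A.det ^ k * P v) (v : Fin d → Fin n → ℝ) (i j : Fin d) :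
    fderiv ℝ P v (Pi.single j (v i)) = if i = j then (k : ℝ) * P v else 0 := by
  have h1 : ∀ t : ℝ, P (v + t • (Pi.single j (v i) : Fin d → Fin n → ℝ)) =
      (1 + if i = j then t else 0) ^ k * P v := by
    intro t
    rw [← det_aux i j t, ← hwt]
    congr 1
    funext j'
    simp only [Pi.add_apply, Pi.smul_apply, Matrix.add_apply, add_smul, Finset.sum_add_distrib]
    congr 1
    · rw [Finset.sum_eq_single j']
      · rw [Matrix.one_apply_eq, one_smul]
      · intro b _ hb
        rw [Matrix.one_apply_ne hb, zero_smul]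
      · intro h; exact absurd (Finset.mem_univ _) h
    · by_cases hj : j = j'
      · subst hj
        rw [Pi.single_eq_same, Finset.sum_eq_single i]
        · simp
        · intro b _ hb
          have : ¬ (i = b ∧ j = j) := fun h => hb h.1.symm
          simp [Matrix.single, Ne.symm hb]
        · intro h; exact absurd (Finset.mem_univ _) h
      · rw [Pi.single_eq_of_ne (Ne.symm hj), smul_zero]
        symm
        apply Finset.sum_eq_zero
        intro b _
        simp [Matrix.single, hj]
  have h2 : HasDerivAt (fun t : ℝ => P (v + t • (Pi.single j (v i) : Fin d → Fin n → ℝ)))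
      (fderiv ℝ P v (Pi.single j (v i))) 0 := by
    have hl : HasDerivAt (fun t : ℝ => v + t • (Pi.single j (v i) : Fin d → Fin n → ℝ))
        (Pi.single j (v i)) 0 := by
      have := ((hasDerivAt_id (0 : ℝ)).smul_const
        (Pi.single j (v i) : Fin d → Fin n → ℝ)).const_add v
      simpa using this
    have hv : HasFDerivAt P (fderiv ℝ P v)
        (v + (0 : ℝ) • (Pi.single j (v i) : Fin d → Fin n → ℝ)) := by
      rw [zero_smul, add_zero]; exact hasD hP v
    exact hv.comp_hasDerivAt (0 : ℝ) hl
  have h3 : HasDerivAt (fun t : ℝ => (1 + if i = j then t else 0) ^ k * P v)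
      (if i = j then (k : ℝ) * P v else 0) 0 := by
    by_cases h : i = j
    · simp only [h, if_true]
      have := (((hasDerivAt_id (0 : ℝ)).const_add 1).pow k).mul_const (P v)
      simpa using this
    · simp only [h, if_false]
      exact hasDerivAt_const _ _
  rw [funext h1] at h2
  exact h2.unique h3

/-- (b) -/
private theorem fd_rmul (hP : ContDiff ℝ 1 P)
    (hwt : ∀ (A : Matrix (Fin d) (Fin d) ℝ) (v : Fin d → Fin n → ℝ),
      P (fun j => ∑ i, A i j • v i) = A.det ^ k * P v) (A : Matrix (Fin d) (Fin d) ℝ)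
    (v w : Fin d → Fin n → ℝ) :
    fderiv ℝ P (rmul A v) (rmul A w) = A.det ^ k * fderiv ℝ P v w := by
  have h1 : HasFDerivAt (fun v => P (rmul A v)) ((fderiv ℝ P (rmul A v)).comp (rmul A)) v :=
    (hasD hP (rmul A v)).comp v (rmul A).hasFDerivAt
  have h2 : HasFDerivAt (fun v => A.det ^ k * P v) (A.det ^ k • fderiv ℝ P v) v :=
    (hasD hP v).const_mul _
  have h3 : (fun v : Fin d → Fin n → ℝ => P (rmul A v)) = fun v => A.det ^ k * P v := by
    funext v; exact hwt A v
  rw [h3] at h1
  have h4 := h1.unique h2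
  have h5 := congrArg (fun L => L w) h4
  simpa using h5

/-- (c) -/
private theorem fd_lmul (hP : ContDiff ℝ 1 P) (g : Matrix (Fin n) (Fin n) ℝ)
    (hg : ∀ v, P (fun j => g *ᵥ v j) = P v) (v w : Fin d → Fin n → ℝ) :
    fderiv ℝ P (lmul g v) (lmul g w) = fderiv ℝ P v w := by
  have h1 : HasFDerivAt (fun v => P (lmul g v)) ((fderiv ℝ P (lmul g v)).comp (lmul g)) v :=
    (hasD hP (lmul g v)).comp v (lmul g).hasFDerivAt
  have h3 : (fun v : Fin d → Fin n → ℝ => P (lmul g v)) = P := by
    funext v; exact hg v
  rw [h3] at h1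
  have h4 := h1.unique (hasD hP v)
  have h5 := congrArg (fun L => L w) h4
  simpa using h5

/-- the projection -/
private noncomputable def pr (k : ℕ) (P : (Fin d → Fin n → ℝ) → ℝ) (v : Fin d → Fin n → ℝ) :
    Fin n → Fin n → ℝ := fun a b =>
  ((k : ℝ) * P v)⁻¹ * ∑ j, fderiv ℝ P v (Pi.single j (Pi.single b 1)) * v j a

private theorem single_eq (j : Fin d) (x : Fin n → ℝ) :
    (Pi.single j x : Fin d → Fin n → ℝ) = ∑ b, x b • (Pi.single j (Pi.single b 1)) := by
  funext j' a
  rw [Finset.sum_apply, Finset.sum_apply]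
  by_cases h : j' = j
  · subst h
    simp [Pi.single_apply]
  · simp [Pi.single_eq_of_ne h]

private theorem pr_mulVec (v : Fin d → Fin n → ℝ) (x : Fin n → ℝ) :
    Matrix.of (pr k P v) *ᵥ x =
      ((k : ℝ) * P v)⁻¹ • ∑ j, fderiv ℝ P v (Pi.single j x) • v j := by
  funext a
  simp only [Matrix.mulVec, dotProduct, Matrix.of_apply, pr, Pi.smul_apply, Finset.sum_apply,
    smul_eq_mul]
  have h : ∀ j, fderiv ℝ P v (Pi.single j x) =
      ∑ b, x b * fderiv ℝ P v (Pi.single j (Pi.single b 1)) := by
    intro j
    rw [single_eq j x, map_sum]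
    exact Finset.sum_congr rfl fun b _ => by rw [map_smul, smul_eq_mul]
  simp only [h, Finset.sum_mul, Finset.mul_sum]
  rw [Finset.sum_comm]
  refine Finset.sum_congr rfl fun b _ => Finset.sum_congr rfl fun j _ => ?_
  ring

private theorem mat_ext {M N : Matrix (Fin n) (Fin n) ℝ} (h : ∀ x, M *ᵥ x = N *ᵥ x) : M = N := by
  ext a b
  have := congrFun (h (Pi.single b 1)) a
  simpa using this

end

theorem proj_exists (n d k : ℕ) (hk : 0 < k) (P : (Fin d → Fin n → ℝ) → ℝ)
    (hP : ContDiff ℝ 1 P)
    (hwt : ∀ (A : Matrix (Fin d) (Fin d) ℝ) (v : Fin d → Fin n → ℝ),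
      P (fun j => ∑ i, A i j • v i) = A.det ^ k * P v) :
    ∃ π : (Fin d → Fin n → ℝ) → (Fin n → Fin n → ℝ), Measurable π ∧
      (∀ v, P v ≠ 0 → ∀ j, Matrix.of (π v) *ᵥ v j = v j) ∧
      (∀ v x, Matrix.of (π v) *ᵥ x ∈ Submodule.span ℝ (Set.range v)) ∧
      (∀ (v : Fin d → Fin n → ℝ) (A : Matrix (Fin d) (Fin d) ℝ), A.det ≠ 0 →
        π (fun j => ∑ i, A i j • v i) = π v) ∧
      (∀ g : Matrix (Fin n) (Fin n) ℝ, g.det = 1 → (∀ v, P (fun j => g *ᵥ v j) = P v) →
        ∀ v, Matrix.of (π fun j => g *ᵥ v j) = g * Matrix.of (π v) * g⁻¹) := by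
  refine ⟨pr k P, ?_, ?_, ?_, ?_, ?_⟩
  · rw [measurable_pi_iff]
    intro a
    rw [measurable_pi_iff]
    intro b
    unfold pr
    have hc : Continuous (fderiv ℝ P) := hP.continuous_fderiv (by norm_num)
    refine Measurable.mul ?_ ?_
    · exact (hP.continuous.measurable.const_mul _).inv
    · refine (continuous_finsetSum _ fun j _ => ?_).measurable
      refine Continuous.mul (hc.clm_apply continuous_const) ?_
      exact (continuous_apply a).comp (continuous_apply j)
  · intro v hv i
    rw [pr_mulVec]
    have hk' : (k : ℝ) ≠ 0 := by exact_mod_cast hk.ne'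
    have : ∑ j, fderiv ℝ P v (Pi.single j (v i)) • v j = ((k : ℝ) * P v) • v i := by
      rw [Finset.sum_eq_single i]
      · rw [fd_single hP hwt, if_pos rfl]
      · intro b _ hb
        rw [fd_single hP hwt, if_neg (Ne.symm hb), zero_smul]
      · intro h; exact absurd (Finset.mem_univ _) h
    rw [this, smul_smul, inv_mul_cancel₀ (mul_ne_zero hk' hv), one_smul]
  · intro v x
    rw [pr_mulVec]
    refine Submodule.smul_mem _ _ (Submodule.sum_mem _ fun j _ => Submodule.smul_mem _ _ ?_)
    exact Submodule.subset_span ⟨j, rfl⟩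
  · intro v A hA
    have key : Matrix.of (pr k P (rmul A v)) = Matrix.of (pr k P v) := by
      apply mat_ext
      intro x
      rw [pr_mulVec, pr_mulVec]
      have hAu : IsUnit A.det := isUnit_iff_ne_zero.mpr hA
      have hAA : A * A⁻¹ = 1 := Matrix.mul_nonsing_inv A hAu
      have hAA' : A⁻¹ * A = 1 := Matrix.nonsing_inv_mul A hAu
      have hPA : P (rmul A v) = A.det ^ k * P v := hwt A v
      -- single j x in terms of rmul A
      have h1 : ∀ j, (Pi.single j x : Fin d → Fin n → ℝ) =
          rmul A (fun j' => A⁻¹ j j' • x) := by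
        intro j
        rw [rmul_apply]
        funext j''
        simp only [smul_smul]
        rw [← Finset.sum_smul]
        have : ∑ i, A i j'' * A⁻¹ j i = (1 : Matrix (Fin d) (Fin d) ℝ) j j'' := by
          rw [← hAA', Matrix.mul_apply]
          exact Finset.sum_congr rfl fun i _ => mul_comm _ _
        rw [this]
        by_cases h : j = j''
        · subst h; simp
        · rw [Matrix.one_apply_ne h, Pi.single_eq_of_ne (Ne.symm h), zero_smul]
      have h2 : ∀ j, (fun j' => A⁻¹ j j' • x : Fin d → Fin n → ℝ) =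
          ∑ j', A⁻¹ j j' • (Pi.single j' x : Fin d → Fin n → ℝ) := by
        intro j
        funext j''
        rw [Finset.sum_apply, Finset.sum_eq_single j'']
        · simp
        · intro b _ hb
          simp [Pi.single_eq_of_ne (Ne.symm hb)]
        · intro h; exact absurd (Finset.mem_univ _) h
      have h3 : ∀ j, fderiv ℝ P (rmul A v) (Pi.single j x) =
          A.det ^ k * ∑ j', A⁻¹ j j' * fderiv ℝ P v (Pi.single j' x) := by
        intro j
        rw [h1 j, fd_rmul hP hwt, h2 j, map_sum]
        congr 1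
        exact Finset.sum_congr rfl fun j' _ => by rw [map_smul, smul_eq_mul]
      have h4 : ∑ j, fderiv ℝ P (rmul A v) (Pi.single j x) • (rmul A v) j =
          A.det ^ k • ∑ j, fderiv ℝ P v (Pi.single j x) • v j := by
        have h5 : ∀ j, (A.det ^ k * ∑ j', A⁻¹ j j' * fderiv ℝ P v (Pi.single j' x)) •
            ∑ i, A i j • v i = A.det ^ k • ∑ i, ∑ j', (A i j * A⁻¹ j j') •
              (fderiv ℝ P v (Pi.single j' x) • v i) := by
          intro j
          rw [mul_smul, Finset.smul_sum]
          congr 1
          refine Finset.sum_congr rfl fun i _ => ?_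
          rw [Finset.sum_smul]
          refine Finset.sum_congr rfl fun j' _ => ?_
          simp only [smul_smul]
          congr 1
          ring
        have h7 : ∑ j, fderiv ℝ P (rmul A v) (Pi.single j x) • (rmul A v) j =
            ∑ j, A.det ^ k • ∑ i, ∑ j', (A i j * A⁻¹ j j') •
              (fderiv ℝ P v (Pi.single j' x) • v i) := by
          refine Finset.sum_congr rfl fun j _ => ?_
          rw [h3 j]
          exact h5 j
        rw [h7, ← Finset.smul_sum]
        congr 1
        rw [Finset.sum_comm]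
        refine Finset.sum_congr rfl fun i _ => ?_
        rw [Finset.sum_comm]
        have h6 : ∀ j', ∑ j, (A i j * A⁻¹ j j') • (fderiv ℝ P v (Pi.single j' x) • v i) =
            (1 : Matrix (Fin d) (Fin d) ℝ) i j' • (fderiv ℝ P v (Pi.single j' x) • v i) := by
          intro j'
          rw [← Finset.sum_smul, ← hAA, Matrix.mul_apply]
        simp only [h6]
        rw [Finset.sum_eq_single i]
        · rw [Matrix.one_apply_eq, one_smul]
        · intro b _ hb
          rw [Matrix.one_apply_ne (Ne.symm hb), zero_smul]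
        · intro h; exact absurd (Finset.mem_univ _) h
      rw [h4, hPA, smul_smul]
      congr 1
      have hd : A.det ^ k ≠ 0 := pow_ne_zero _ hA
      rw [mul_inv, mul_inv, mul_inv]
      calc (k : ℝ)⁻¹ * ((A.det ^ k)⁻¹ * (P v)⁻¹) * A.det ^ k
          = ((A.det ^ k)⁻¹ * A.det ^ k) * ((k : ℝ)⁻¹ * (P v)⁻¹) := by ring
        _ = (k : ℝ)⁻¹ * (P v)⁻¹ := by rw [inv_mul_cancel₀ hd, one_mul]
    exact Matrix.of.injective key
  · intro g hg hgP v
    have hgu : IsUnit g.det := by rw [hg]; exact isUnit_one
    have hgg : g * g⁻¹ = 1 := Matrix.mul_nonsing_inv g hgu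
    apply mat_ext
    intro x
    have e : (fun j => g *ᵥ v j) = lmul g v := rfl
    rw [e, pr_mulVec, ← Matrix.mulVec_mulVec, ← Matrix.mulVec_mulVec, pr_mulVec]
    have hPg : P (lmul g v) = P v := hgP v
    have h1 : ∀ j, (Pi.single j x : Fin d → Fin n → ℝ) =
        lmul g (Pi.single j (g⁻¹ *ᵥ x)) := by
      intro j
      rw [lmul_apply]
      funext j'
      by_cases h : j' = j
      · subst h
        rw [Pi.single_eq_same, Pi.single_eq_same, Matrix.mulVec_mulVec, hgg, Matrix.one_mulVec]
      · rw [Pi.single_eq_of_ne h, Pi.single_eq_of_ne h, Matrix.mulVec_zero]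
    rw [hPg, Matrix.mulVec_smul]
    congr 1
    rw [Matrix.mulVec_sum]
    refine Finset.sum_congr rfl fun j _ => ?_
    rw [h1 j, fd_lmul hP g hgP, Matrix.mulVec_smul]
    rfl

end Pool.Agent.H9.IH
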