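import Mathlib

/-!
# An equivariant map which multiplies Haar measure by a constant
-/

set_option autoImplicit false

open MeasureTheory
open scoped ENNReal

namespace Pool.Agent.H9.IH

/-- left translations which preserve `S` -/
private theorem shift {G : Type} [Group G] [TopologicalSpace G] [IsTopologicalGroup G]
    [MeasurableSpace G] [BorelSpace G]
    (μ : Measure G) [μ.IsMulLeftInvariant] (S : Set G) (hS : MeasurableSet S) (a : G)
    (ha : ∀ g, a * g ∈ S ↔ g ∈ S) (F : G → ℝ≥0∞) :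
    ∫⁻ g in S, F (a * g) ∂μ = ∫⁻ g in S, F g ∂μ := by
  rw [← lintegral_indicator hS, ← lintegral_indicator hS,
    ← lintegral_mul_left_eq_self (μ := μ) (S.indicator F) a]
  refine lintegral_congr fun g => ?_
  by_cases hg : g ∈ S
  · rw [Set.indicator_of_mem hg, Set.indicator_of_mem ((ha g).2 hg)]
  · rw [Set.indicator_of_notMem hg, Set.indicator_of_notMem fun h => hg ((ha g).1 h)]

/-- a weight on the fibres of `θ` -/
private theorem expand_fibre {G : Type} [Group G] [TopologicalSpace G] [IsTopologicalGroup G]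
    [SecondCountableTopology G] [MeasurableSpace G] [BorelSpace G]
    (μ : Measure G) [SFinite μ] [μ.IsMulLeftInvariant]
    {E : Type} [NormedAddCommGroup E] [NormedSpace ℝ E] [FiniteDimensional ℝ E]
    [MeasurableSpace E] [BorelSpace E] (τ : Measure E) [τ.IsAddHaarMeasure]
    (ι : E → G) (hι : Continuous ι) (hadd : ∀ v w, ι (v + w) = ι v * ι w)
    (S : Set G) (hS : MeasurableSet S) (hSι : ∀ v g, ι v * g ∈ S ↔ g ∈ S)
    (θ : G → E) (hθ : Measurable θ) (hθι : ∀ v, ∀ g ∈ S, θ (ι v * g) = v + θ g)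
    (ρ : E → ℝ≥0∞) (hρ : Measurable ρ) (hρ1 : ∀ a, ∫⁻ v, ρ (v + a) ∂τ = 1)
    (u : G → ℝ≥0∞) (hu : Measurable u) :
    ∫⁻ g in S, ∫⁻ v, u (ι (-v) * g) * ρ (θ g) ∂τ ∂μ = ∫⁻ g in S, u g ∂μ := by
  have h0 : ι 0 = 1 := by
    have h := hadd 0 0
    rw [add_zero] at h
    exact (mul_eq_left.1 h.symm)
  have hcancel : ∀ (v : E) (g : G), ι (-v) * (ι v * g) = g := by
    intro v g
    rw [← mul_assoc, ← hadd, neg_add_cancel, h0, one_mul]
  have hsw1 : ∫⁻ g in S, ∫⁻ v, u (ι (-v) * g) * ρ (θ g) ∂τ ∂μ =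
      ∫⁻ v, ∫⁻ g in S, u (ι (-v) * g) * ρ (θ g) ∂μ ∂τ := by
    refine lintegral_lintegral_swap (Measurable.aemeasurable ?_)
    refine Measurable.mul (hu.comp ?_) (hρ.comp (hθ.comp measurable_fst))
    exact (hι.measurable.comp (measurable_snd.neg)).mul measurable_fst
  have hsw2 : ∫⁻ v, ∫⁻ g in S, u g * ρ (v + θ g) ∂μ ∂τ =
      ∫⁻ g in S, ∫⁻ v, u g * ρ (v + θ g) ∂τ ∂μ := by
    refine lintegral_lintegral_swap (Measurable.aemeasurable ?_)
    refine Measurable.mul (hu.comp measurable_snd) (hρ.comp ?_)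
    exact measurable_fst.add (hθ.comp measurable_snd)
  rw [hsw1]
  have hin : ∀ v : E, ∫⁻ g in S, u (ι (-v) * g) * ρ (θ g) ∂μ =
      ∫⁻ g in S, u g * ρ (v + θ g) ∂μ := by
    intro v
    rw [← shift μ S hS (ι v) (hSι v) fun g => u (ι (-v) * g) * ρ (θ g)]
    refine setLIntegral_congr_fun hS fun g hg => ?_
    simp only [hcancel, hθι v g hg]
  simp only [hin]
  rw [hsw2]
  refine setLIntegral_congr_fun hS fun g _ => ?_
  have hm : Measurable fun v : E => ρ (v + θ g) := hρ.comp (measurable_id.add_const (θ g))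
  rw [lintegral_const_mul _ hm, hρ1 (θ g), mul_one]

theorem scaling {G : Type} [Group G] [TopologicalSpace G] [IsTopologicalGroup G]
    [SecondCountableTopology G] [MeasurableSpace G] [BorelSpace G]
    (μ : Measure G) [SFinite μ] [μ.IsMulLeftInvariant]
    {E : Type} [NormedAddCommGroup E] [NormedSpace ℝ E] [FiniteDimensional ℝ E]
    [MeasurableSpace E] [BorelSpace E] (τ : Measure E) [τ.IsAddHaarMeasure]
    (ι : E → G) (hι : Continuous ι) (hadd : ∀ v w, ι (v + w) = ι v * ι w)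
    (z : G) (c : ℝ) (hc : 0 < c) (hz : ∀ v, z * ι v * z⁻¹ = ι (c • v))
    (S : Set G) (hS : MeasurableSet S) (hSι : ∀ v g, ι v * g ∈ S ↔ g ∈ S)
    (hSz : ∀ g, z * g ∈ S ↔ g ∈ S)
    (θ : G → E) (hθ : Measurable θ) (hθι : ∀ v, ∀ g ∈ S, θ (ι v * g) = v + θ g)
    (f : G → ℝ≥0∞) (hf : Measurable f) :
    ∫⁻ g in S, f (ι (θ g) * z * ι (-θ g) * g) ∂μ =
      ENNReal.ofReal (c ^ Module.finrank ℝ E) * ∫⁻ g in S, f g ∂μ := by
  have hιm : Measurable ι := hι.measurable
  -- the weight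
  have hb0 : τ (Metric.ball (0 : E) 1) ≠ 0 := (Metric.measure_ball_pos τ 0 one_pos).ne'
  have hbt : τ (Metric.ball (0 : E) 1) ≠ ⊤ := measure_ball_lt_top.ne
  set ρ : E → ℝ≥0∞ := (Metric.ball (0 : E) 1).indicator fun _ => (τ (Metric.ball (0 : E) 1))⁻¹
    with hρdef
  have hρ : Measurable ρ := measurable_const.indicator measurableSet_ball
  have hρ1 : ∀ a, ∫⁻ v, ρ (v + a) ∂τ = 1 := by
    intro a
    rw [lintegral_add_right_eq_self (μ := τ) ρ a, hρdef,
      lintegral_indicator_const measurableSet_ball, ENNReal.inv_mul_cancel hb0 hbt]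
  have hΦ : Measurable fun g => ι (θ g) * z * ι (-θ g) * g :=
    (((hιm.comp hθ).mul_const z).mul (hιm.comp hθ.neg)).mul measurable_id
  have hcancel : ∀ v w : E, ι v * ι w = ι (v + w) := fun v w => (hadd v w).symm
  have hzι : ∀ v : E, ι (c • v) * z = z * ι v := by
    intro v
    rw [← hz v, inv_mul_cancel_right]
  -- the inner integral
  have hinner : ∀ g : G, ∫⁻ v, f (ι (-v) * (ι (θ g) * z * ι (-θ g) * g)) ∂τ =
      ENNReal.ofReal (c ^ Module.finrank ℝ E) * ∫⁻ v, f (z * (ι (-v) * g)) ∂τ := by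
    intro g
    set H : E → ℝ≥0∞ := fun v => f (ι (-v) * z * (ι (-θ g) * g)) with hH
    have hHm : Measurable H := hf.comp
      (((hιm.comp measurable_neg).mul_const z).mul_const _)
    have e1 : ∫⁻ v, f (ι (-v) * (ι (θ g) * z * ι (-θ g) * g)) ∂τ = ∫⁻ v, H v ∂τ := by
      rw [← lintegral_sub_right_eq_self (μ := τ) H (θ g)]
      refine lintegral_congr fun v => ?_
      rw [hH]
      simp only
      rw [show -(v - θ g) = -v + θ g by abel, hadd]
      simp only [mul_assoc]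
    have e2 : ∫⁻ v, H (c • v) ∂τ = ∫⁻ v, f (z * (ι (-v) * g)) ∂τ := by
      rw [← lintegral_add_right_eq_self (μ := τ) (fun v => f (z * (ι (-v) * g))) (θ g)]
      refine lintegral_congr fun v => ?_
      rw [hH]
      simp only
      rw [← smul_neg, hzι, neg_add, hadd]
      simp only [mul_assoc]
    have e3 : ∫⁻ v, H (c • v) ∂τ =
        ENNReal.ofReal |(c ^ Module.finrank ℝ E)⁻¹| * ∫⁻ v, H v ∂τ := by
      rw [← lintegral_map hHm (measurable_const_smul c), Measure.map_addHaar_smul τ hc.ne',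
        lintegral_smul_measure, smul_eq_mul]
    have hcp : 0 < c ^ Module.finrank ℝ E := pow_pos hc _
    rw [e1, ← e2, e3, ← mul_assoc, ← ENNReal.ofReal_mul hcp.le,
      abs_of_pos (inv_pos.2 hcp), mul_inv_cancel₀ hcp.ne', ENNReal.ofReal_one, one_mul]
  rw [← expand_fibre μ τ ι hι hadd S hS hSι θ hθ hθι ρ hρ hρ1
    (fun g => f (ι (θ g) * z * ι (-θ g) * g)) (hf.comp hΦ)]
  have hstep : ∀ g ∈ S, ∫⁻ v, f (ι (θ (ι (-v) * g)) * z * ι (-θ (ι (-v) * g)) * (ι (-v) * g)) *
      ρ (θ g) ∂τ = ENNReal.ofReal (c ^ Module.finrank ℝ E) *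
        ∫⁻ v, f (z * (ι (-v) * g)) * ρ (θ g) ∂τ := by
    intro g hg
    have h1 : ∀ v : E, ι (θ (ι (-v) * g)) * z * ι (-θ (ι (-v) * g)) * (ι (-v) * g) =
        ι (-v) * (ι (θ g) * z * ι (-θ g) * g) := by
      intro v
      rw [hθι (-v) g hg, hadd, show -(-v + θ g) = -θ g + v by abel, hadd]
      have h2 : ι v * (ι (-v) * g) = g := by
        rw [← mul_assoc, ← hadd, add_neg_cancel]
        have h := hadd 0 0
        rw [add_zero] at h
        rw [mul_eq_left.1 h.symm, one_mul]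
      simp only [mul_assoc]
      rw [h2]
    simp only [h1]
    have hm1 : Measurable fun v : E => f (ι (-v) * (ι (θ g) * z * ι (-θ g) * g)) :=
      hf.comp ((hιm.comp measurable_neg).mul_const _)
    have hm2 : Measurable fun v : E => f (z * (ι (-v) * g)) :=
      hf.comp (((hιm.comp measurable_neg).mul_const g).const_mul z)
    rw [lintegral_mul_const _ hm1, lintegral_mul_const _ hm2, hinner g, mul_assoc]
  rw [setLIntegral_congr_fun hS hstep, lintegral_const_mul' _ _ ENNReal.ofReal_ne_top]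
  congr 1
  have h4 := expand_fibre μ τ ι hι hadd S hS hSι θ hθ hθι ρ hρ hρ1
    (fun g => f (z * g)) (hf.comp (measurable_id.const_mul z))
  rw [h4]
  exact shift μ S hS z hSz f

end Pool.Agent.H9.IH
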