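import Mathlib

/-!
# From the action on `G / H` to compact sets of `G`, also for subgroups of finite index
-/

set_option autoImplicit false

namespace Pool.Agent.H9.IH

theorem pd_lift {G : Type} [Group G] [TopologicalSpace G] [IsTopologicalGroup G]
    (H Γ Γ₀ : Subgroup G) (hΓ : Γ₀ ≤ Γ)
    (hpd : ∀ K : Set (G ⧸ H), IsCompact K → {γ : Γ | ∃ x ∈ K, γ • x ∈ K}.Finite)
    (K : Set G) (hK : IsCompact K) :
    {γ : Γ₀ | ∃ g ∈ K, ∃ h ∈ H, (γ : G) * g * h ∈ K}.Finite := by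
  have hcont : Continuous (fun g : G => (g : G ⧸ H)) := continuous_quot_mk
  have h1 := hpd ((fun g : G => (g : G ⧸ H)) '' K) (hK.image hcont)
  have hinj : Function.Injective (Subgroup.inclusion hΓ) := Subgroup.inclusion_injective hΓ
  refine (h1.preimage hinj.injOn).subset ?_
  rintro γ ⟨g, hg, h, hh, hgh⟩
  refine ⟨(g : G ⧸ H), ⟨g, hg, rfl⟩, ⟨(γ : G) * g * h, hgh, ?_⟩⟩
  have h2 : (((γ : G) * g * h : G) : G ⧸ H) = (((γ : G) * g : G) : G ⧸ H) := by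
    rw [QuotientGroup.mk_mul_of_mem _ hh]
  exact h2

private theorem cover {G : Type} [Group G] [TopologicalSpace G] [IsTopologicalGroup G]
    [LocallyCompactSpace G] (H Γ : Subgroup G)
    (hc : CompactSpace (MulAction.orbitRel.Quotient Γ (G ⧸ H))) :
    ∃ C : Set G, IsCompact C ∧ ∀ g, ∃ γ ∈ Γ, ∃ h ∈ H, γ * g * h ∈ C := by
  classical
  set Q := MulAction.orbitRel.Quotient Γ (G ⧸ H) with hQ
  set π : G → Q := fun g => Quotient.mk _ ((g : G) : G ⧸ H) with hπ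
  have hπq : Topology.IsQuotientMap π := by
    have h1 : Topology.IsQuotientMap (fun g : G => (g : G ⧸ H)) := isQuotientMap_quot_mk
    have h2 : Topology.IsQuotientMap (fun x : G ⧸ H => (Quotient.mk _ x : Q)) :=
      isQuotientMap_quot_mk
    exact h2.comp h1
  have hsat : ∀ g g' : G, π g = π g' → ∃ γ ∈ Γ, ∃ h ∈ H, g = γ * g' * h := by
    intro g g' hgg
    have h1 := Quotient.exact hgg
    obtain ⟨γ, hγ⟩ := h1
    have h2 : (((γ : G) * g' : G) : G ⧸ H) = (g : G ⧸ H) := hγ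
    rw [QuotientGroup.eq] at h2
    refine ⟨γ, γ.2, ((γ : G) * g')⁻¹ * g, h2, ?_⟩
    group
  have hex : ∀ g : G, ∃ N : Set G, IsCompact N ∧ g ∈ interior N := by
    intro g
    obtain ⟨N, hN, hgN⟩ := exists_compact_mem_nhds g
    exact ⟨N, hN, mem_interior_iff_mem_nhds.mpr hgN⟩
  choose N hNc hNg using hex
  set U : G → Set G := fun a => {g | ∃ γ ∈ Γ, ∃ h ∈ H, γ * g * h ∈ interior (N a)} with hU
  have hUopen : ∀ a, IsOpen (U a) := by
    intro a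
    have h1 : U a = ⋃ γ ∈ Γ, ⋃ h ∈ H, {g : G | γ * g * h ∈ interior (N a)} := by
      ext g
      simp [hU]
    rw [h1]
    refine isOpen_biUnion fun γ _ => isOpen_biUnion fun h _ => ?_
    have hcont : Continuous (fun g : G => γ * g * h) := by fun_prop
    exact isOpen_interior.preimage hcont
  have hUsat : ∀ a (g g' : G), π g = π g' → g' ∈ U a → g ∈ U a := by
    rintro a g g' hgg ⟨γ, hγ, h, hh, hb⟩
    obtain ⟨γ', hγ', h', hh', he⟩ := hsat g g' hgg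
    refine ⟨γ * γ'⁻¹, Γ.mul_mem hγ (Γ.inv_mem hγ'), h'⁻¹ * h, H.mul_mem (H.inv_mem hh') hh, ?_⟩
    have h3 : γ * γ'⁻¹ * g * (h'⁻¹ * h) = γ * g' * h := by
      rw [he]
      group
    rw [h3]
    exact hb
  have hVopen : ∀ a, IsOpen (π '' U a) := by
    intro a
    rw [← hπq.isOpen_preimage]
    have h1 : π ⁻¹' (π '' U a) = U a := by
      ext g
      constructor
      · rintro ⟨g', hg', he⟩
        exact hUsat a g g' he.symm hg'
      · intro hg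
        exact ⟨g, hg, rfl⟩
    rw [h1]
    exact hUopen a
  have hcov : (Set.univ : Set Q) ⊆ ⋃ a, π '' U a := by
    intro q _
    obtain ⟨g, rfl⟩ := hπq.surjective q
    refine Set.mem_iUnion.mpr ⟨g, g, ⟨1, Γ.one_mem, 1, H.one_mem, ?_⟩, rfl⟩
    simpa using hNg g
  obtain ⟨t, ht⟩ := isCompact_univ.elim_finite_subcover _ hVopen hcov
  refine ⟨⋃ a ∈ t, N a, t.isCompact_biUnion fun a _ => hNc a, fun g => ?_⟩
  obtain ⟨a, ha, hga⟩ := Set.mem_iUnion₂.mp (ht (Set.mem_univ (π g)))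
  obtain ⟨g', hg', he⟩ := hga
  obtain ⟨γ, hγ, h, hh, hb⟩ := hUsat a g g' he.symm hg'
  exact ⟨γ, hγ, h, hh, Set.mem_iUnion₂.mpr ⟨a, ha, interior_subset hb⟩⟩

theorem compact_lift {G : Type} [Group G] [TopologicalSpace G] [IsTopologicalGroup G]
    [LocallyCompactSpace G] (H Γ Γ₀ : Subgroup G) (hΓ : Γ₀ ≤ Γ) (hfin : Γ₀.relIndex Γ ≠ 0)
    (hc : CompactSpace (MulAction.orbitRel.Quotient Γ (G ⧸ H))) :
    ∃ C : Set G, IsCompact C ∧ ∀ g, ∃ γ ∈ Γ₀, ∃ h ∈ H, γ * g * h ∈ C := by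
  classical
  obtain ⟨C, hC, hCg⟩ := cover H Γ hc
  have hI : (Γ₀.subgroupOf Γ).FiniteIndex := ⟨hfin⟩
  have hF : Finite (Γ ⧸ Γ₀.subgroupOf Γ) := Subgroup.finite_quotient_of_finiteIndex
  refine ⟨⋃ q : Γ ⧸ Γ₀.subgroupOf Γ, (fun g : G => ((q.out : Γ) : G)⁻¹ * g) '' C, ?_, fun g => ?_⟩
  · exact isCompact_iUnion fun q => hC.image (by fun_prop)
  · obtain ⟨γ, hγ, h, hh, hb⟩ := hCg g
    set q : Γ ⧸ Γ₀.subgroupOf Γ := ((⟨γ, hγ⟩ : Γ) : Γ ⧸ Γ₀.subgroupOf Γ) with hq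
    have h1 : ((q.out : Γ) : Γ ⧸ Γ₀.subgroupOf Γ) = ((⟨γ, hγ⟩ : Γ) : Γ ⧸ Γ₀.subgroupOf Γ) :=
      QuotientGroup.out_eq' q
    rw [QuotientGroup.eq, Subgroup.mem_subgroupOf] at h1
    refine ⟨((q.out : Γ) : G)⁻¹ * γ, ?_, h, hh, ?_⟩
    · simpa using h1
    · refine Set.mem_iUnion.mpr ⟨q, γ * g * h, hb, ?_⟩
      simp only [mul_assoc]

end Pool.Agent.H9.IH
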