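import Mathlib

/-!
# A weight function for a properly discontinuous cocompact action on a homogeneous space
-/

set_option autoImplicit false

open MeasureTheory
open scoped ENNReal Pointwise

namespace Pool.Agent.H9.IH

theorem weight {G : Type} [Group G] [TopologicalSpace G] [IsTopologicalGroup G]
    [LocallyCompactSpace G] [T2Space G] [SecondCountableTopology G] [MeasurableSpace G]
    [BorelSpace G] (μ : Measure G) [μ.IsHaarMeasure]
    (H : Subgroup G) (hH : IsClosed (H : Set G)) (ν : Measure H) [ν.IsHaarMeasure]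
    (Γ : Subgroup G)
    (hpd : ∀ K : Set G, IsCompact K → {γ : Γ | ∃ g ∈ K, ∃ h ∈ H, (γ : G) * g * h ∈ K}.Finite)
    (hc : ∃ C : Set G, IsCompact C ∧ ∀ g, ∃ γ ∈ Γ, ∃ h ∈ H, γ * g * h ∈ C) :
    Countable Γ ∧ ∃ κ : G → ℝ≥0∞, Measurable κ ∧
      (∀ g, ∑' γ : Γ, ∫⁻ h : H, κ (γ * g * h) ∂ν = 1) ∧ ∫⁻ g, κ g ∂μ ≠ ⊤ := by
  classical
  -- countability
  have hΓ : Countable Γ := by
    have hcov : (Set.univ : Set Γ) ⊆ ⋃ n : ℕ, {γ : Γ | ∃ g ∈ compactCovering G n,
        ∃ h ∈ H, (γ : G) * g * h ∈ compactCovering G n} := by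
      intro γ _
      obtain ⟨n, hn⟩ := exists_mem_compactCovering (1 : G)
      obtain ⟨m, hm⟩ := exists_mem_compactCovering (γ : G)
      refine Set.mem_iUnion.2 ⟨max n m, 1, compactCovering_subset G (le_max_left _ _) hn, 1,
        H.one_mem, ?_⟩
      rw [mul_one, mul_one]
      exact compactCovering_subset G (le_max_right _ _) hm
    rw [← Set.countable_univ_iff]
    exact (Set.countable_iUnion fun n =>
      (hpd _ (isCompact_compactCovering G n)).countable).mono hcov
  refine ⟨hΓ, ?_⟩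
  obtain ⟨C, hC, hcov⟩ := hc
  obtain ⟨V, hV, hV1⟩ := exists_compact_mem_nhds (1 : G)
  obtain ⟨K, hK⟩ : ∃ K : Set G, K = C * V := ⟨_, rfl⟩
  have hKc : IsCompact K := by rw [hK]; exact hC.mul hV
  have hKm : MeasurableSet K := hKc.measurableSet
  have hce : Topology.IsClosedEmbedding (Subtype.val : H → G) := hH.isClosedEmbedding_subtypeVal
  have hloc : LocallyCompactSpace H := hce.locallyCompactSpace
  have hscH : SecondCountableTopology H := hce.toIsEmbedding.secondCountableTopology
  have hbH : BorelSpace H := inferInstance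
  have hscc : SigmaCompactSpace H := inferInstance
  have htg : IsTopologicalGroup H := inferInstance
  have hsig : SigmaFinite ν := inferInstance
  -- the neighbourhood in H
  obtain ⟨U, hU⟩ : ∃ U : Set H, U = Subtype.val ⁻¹' V := ⟨_, rfl⟩
  have hUc : IsCompact U := by rw [hU]; exact hce.isCompact_preimage hV
  have hUn : U ∈ nhds (1 : H) := by
    rw [hU]
    exact continuous_subtype_val.continuousAt.preimage_mem_nhds (by simpa using hV1)
  have hUpos : 0 < ν U := Measure.measure_pos_of_mem_nhds ν hUn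
  have hUfin : ν U ≠ ⊤ := hUc.measure_lt_top.ne
  obtain ⟨F, hF⟩ : ∃ F : Γ → G → ℝ≥0∞, F = fun (γ : Γ) g => ν {h : H | (γ : G) * g * h ∈ K} := ⟨_, rfl⟩
  have hFd : ∀ γ g, F γ g = ν {h : H | (γ : G) * g * h ∈ K} := by intro γ g; rw [hF]
  obtain ⟨W, hW⟩ : ∃ W : G → ℝ≥0∞, W = fun g => ∑' γ : Γ, F γ g := ⟨_, rfl⟩
  have hWd : ∀ g, W g = ∑' γ : Γ, F γ g := by intro g; rw [hW]
  have hmc : ∀ x : G, Continuous fun h : H => x * (h : G) :=
    fun x => continuous_const.mul continuous_subtype_val
  have hset : ∀ x : G, MeasurableSet {h : H | x * (h : G) ∈ K} := fun x =>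
    (hmc x).measurable hKm
  -- lower bound
  have hlow : ∀ g, ν U ≤ W g := by
    intro g
    obtain ⟨γ, hγ, h0, hh0, hg⟩ := hcov g
    rw [hWd]
    refine le_trans ?_ (ENNReal.le_tsum (⟨γ, hγ⟩ : Γ))
    rw [hFd]
    have e1 : ν ((fun h => (⟨h0, hh0⟩ : H)⁻¹ * h) ⁻¹' U) = ν U := measure_preimage_mul ν _ U
    rw [← e1]
    refine measure_mono ?_
    intro h hh
    rw [Set.mem_preimage, hU, Set.mem_preimage] at hh
    rw [Set.mem_ofPred_eq, hK]
    refine ⟨γ * g * h0, hg, h0⁻¹ * h, ?_, ?_⟩
    · simpa using hh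
    · simp only
      group
  -- finiteness
  have hfin : ∀ g, W g ≠ ⊤ := by
    intro g
    rw [hWd]
    have hf := hpd (K ∪ {g}) (hKc.union isCompact_singleton)
    have hz : ∀ γ : Γ, γ ∉ hf.toFinset → F γ g = 0 := by
      intro γ hγ
      rw [hFd]
      have : {h : H | (γ : G) * g * h ∈ K} = ∅ := by
        ext h
        simp only [Set.mem_ofPred_eq, Set.mem_empty_iff_false, iff_false]
        intro hh
        refine hγ ?_
        rw [Set.Finite.mem_toFinset]
        exact ⟨g, Or.inr rfl, h, h.2, Or.inl hh⟩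
      rw [this, measure_empty]
    rw [tsum_eq_sum (s := hf.toFinset) (fun γ hγ => hz γ hγ)]
    refine (ENNReal.sum_lt_top.2 ?_).ne
    intro γ _
    rw [hFd]
    have hcomp : IsCompact {h : H | (γ : G) * g * h ∈ K} := by
      have e : {h : H | (γ : G) * g * h ∈ K} = (fun h : H => (h : G)) ⁻¹'
          ((Homeomorph.mulLeft ((γ : G) * g)) ⁻¹' K) := by
        ext h; simp
      rw [e]
      refine hce.isCompact_preimage ?_
      exact (Homeomorph.isCompact_preimage _).2 hKc
    exact hcomp.measure_lt_top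
  -- invariance
  have hinv : ∀ (γ : Γ) (g : G) (h' : H), W ((γ : G) * g * h') = W g := by
    intro γ g h'
    rw [hWd, hWd]
    rw [← Equiv.tsum_eq (Equiv.mulRight γ) (fun δ => F δ g)]
    refine tsum_congr ?_
    intro δ
    rw [hFd, hFd]
    have e1 := measure_preimage_mul ν h' {h : H | ((Equiv.mulRight γ δ : Γ) : G) * g * h ∈ K}
    rw [← e1]
    congr 1
    ext h
    simp only [Set.mem_ofPred_eq, Set.mem_preimage, Equiv.coe_mulRight, Subgroup.coe_mul, mul_assoc]
  -- measurability
  have hFi : ∀ γ g, F γ g = ∫⁻ h : H, K.indicator (fun _ => (1 : ℝ≥0∞)) ((γ : G) * g * h) ∂ν := by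
    intro γ g
    rw [hFd]
    have e : (fun h : H => K.indicator (fun _ => (1 : ℝ≥0∞)) ((γ : G) * g * h)) =
        {h : H | (γ : G) * g * h ∈ K}.indicator 1 := by
      ext h
      by_cases hh : (γ : G) * g * h ∈ K
      · rw [Set.indicator_of_mem hh, Set.indicator_of_mem (by exact hh)]; rfl
      · rw [Set.indicator_of_notMem hh, Set.indicator_of_notMem (by exact hh)]
    rw [e, lintegral_indicator_one (hset _)]
  have hFm : ∀ γ, Measurable (F γ) := by
    intro γ
    have e : F γ = fun g => ∫⁻ h : H, K.indicator (fun _ => (1 : ℝ≥0∞)) ((γ : G) * g * h) ∂ν := by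
      ext g; exact hFi γ g
    rw [e]
    have hm : Measurable (fun p : G × H =>
        K.indicator (fun _ => (1 : ℝ≥0∞)) ((γ : G) * p.1 * p.2)) := by
      refine (measurable_const.indicator hKm).comp ?_
      have : Continuous fun p : G × H => (γ : G) * p.1 * (p.2 : G) := by fun_prop
      exact this.measurable
    exact hm.lintegral_prod_right'
  have hWm : Measurable W := by
    rw [hW]
    exact Measurable.tsum hFm
  -- the weight
  refine ⟨fun g => K.indicator (fun _ => (1 : ℝ≥0∞)) g / W g, ?_, ?_, ?_⟩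
  · exact (measurable_const.indicator hKm).div hWm
  · intro g
    have e1 : ∀ γ : Γ, ∫⁻ h : H, K.indicator (fun _ => (1 : ℝ≥0∞)) ((γ : G) * g * h) /
        W ((γ : G) * g * h) ∂ν = F γ g / W g := by
      intro γ
      rw [hFi γ g, div_eq_mul_inv, ← lintegral_mul_const']
      · refine lintegral_congr ?_
        intro h
        rw [hinv γ g h, div_eq_mul_inv]
      · exact ENNReal.inv_ne_top.2 (lt_of_lt_of_le hUpos (hlow g)).ne'
    simp only [e1]
    rw [show (fun γ : Γ => F γ g / W g) = fun γ => F γ g * (W g)⁻¹ from rfl] 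
    rw [ENNReal.tsum_mul_right, ← hWd]
    exact ENNReal.mul_inv_cancel (lt_of_lt_of_le hUpos (hlow g)).ne' (hfin g)
  · have hle : ∀ g, K.indicator (fun _ => (1 : ℝ≥0∞)) g / W g ≤
        K.indicator (fun _ => (ν U)⁻¹) g := by
      intro g
      by_cases hg : g ∈ K
      · rw [Set.indicator_of_mem hg, Set.indicator_of_mem hg, one_div]
        exact ENNReal.inv_le_inv.2 (hlow g)
      · rw [Set.indicator_of_notMem hg, Set.indicator_of_notMem hg, ENNReal.zero_div]
    refine (lt_of_le_of_lt (lintegral_mono hle) ?_).ne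
    rw [lintegral_indicator_const hKm]
    exact ENNReal.mul_lt_top (ENNReal.inv_lt_top.2 hUpos) hKc.measure_lt_top

end Pool.Agent.H9.IH
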