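import Mathlib
import Pool.Agent.H21.CQ.Core
import Pool.Agent.H9.IH.Exch
import Pool.Agent.H9.IH.Weight
import Pool.Agent.H9.IH.Top
import Pool.Agent.H9.IH.Scal
import Pool.Agent.H9.IH.Uni
import Pool.Agent.H9.IH.Proj
import Pool.Agent.H9.IH.Closure

/-!
# No invariant subspaces for discontinuous cocompact groups
-/

set_option autoImplicit false

open MeasureTheory Matrix Module
open scoped ENNReal

namespace Pool.Agent.H9.IH

private theorem indep_of_ne {n d k : ℕ} (hk : 0 < k) (P : (Fin d → Fin n → ℝ) → ℝ)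
    (hwt : ∀ (A : Matrix (Fin d) (Fin d) ℝ) (v : Fin d → Fin n → ℝ),
      P (fun j => ∑ i, A i j • v i) = A.det ^ k * P v) (v : Fin d → Fin n → ℝ) (hv : P v ≠ 0) :
    LinearIndependent ℝ v := by
  classical
  by_contra hli
  rw [Fintype.not_linearIndependent_iff] at hli
  obtain ⟨c, hc0, i₀, hi₀⟩ := hli
  set A : Matrix (Fin d) (Fin d) ℝ := Matrix.of fun i j =>
    (if i = j then (1 : ℝ) else 0) - (if j = i₀ then c i / c i₀ else 0) with hA
  have hdet : A.det = 0 := by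
    apply Matrix.det_eq_zero_of_row_eq_zero i₀
    intro j
    rw [hA, Matrix.of_apply]
    by_cases hj : j = i₀
    · subst hj; simp [hi₀]
    · simp [hj, Ne.symm hj]
  have hvA : (fun j => ∑ i, A i j • v i) = v := by
    funext j
    have h1 : ∀ i, A i j • v i = (if i = j then v i else 0) -
        (if j = i₀ then (c i₀)⁻¹ • (c i • v i) else 0) := by
      intro i
      rw [hA, Matrix.of_apply, sub_smul]
      congr 1
      · split_ifs <;> simp
      · split_ifs
        · rw [smul_smul, div_eq_inv_mul]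
        · simp
    rw [Finset.sum_congr rfl fun i _ => h1 i, Finset.sum_sub_distrib]
    simp only [Finset.sum_ite_eq', Finset.mem_univ, if_true]
    split_ifs
    · rw [← Finset.smul_sum, hc0, smul_zero, sub_zero]
    · simp
  have h2 := hwt A v
  rw [hvA, hdet, zero_pow hk.ne', zero_mul] at h2
  exact hv h2

private theorem sl_lc (n : ℕ) : LocallyCompactSpace (SpecialLinearGroup (Fin n) ℝ) := by
  have : LocallyCompactSpace (Matrix (Fin n) (Fin n) ℝ) :=
    inferInstanceAs (LocallyCompactSpace (Fin n → Fin n → ℝ))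
  exact (Matrix.SpecialLinearGroup.isClosedEmbedding_val (n := Fin n) (R := ℝ)).locallyCompactSpace

private theorem sl_t2 (n : ℕ) : T2Space (SpecialLinearGroup (Fin n) ℝ) := by
  have : T2Space (Matrix (Fin n) (Fin n) ℝ) :=
    inferInstanceAs (T2Space (Fin n → Fin n → ℝ))
  exact (Matrix.SpecialLinearGroup.isClosedEmbedding_val (n := Fin n) (R := ℝ)).isEmbedding.t2Space

private theorem sl_sc (n : ℕ) : SecondCountableTopology (SpecialLinearGroup (Fin n) ℝ) := by
  have : SecondCountableTopology (Matrix (Fin n) (Fin n) ℝ) :=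
    inferInstanceAs (SecondCountableTopology (Fin n → Fin n → ℝ))
  exact (Matrix.SpecialLinearGroup.isClosedEmbedding_val (n := Fin n)
    (R := ℝ)).isEmbedding.secondCountableTopology

private theorem mat_ext {n : ℕ} {A B : Matrix (Fin n) (Fin n) ℝ}
    (h : ∀ x, A *ᵥ x = B *ᵥ x) : A = B :=
  Matrix.toLin'.injective (LinearMap.ext fun x => by simpa using h x)

private theorem exists_left_inverse {n d : ℕ} (u : Fin d → Fin n → ℝ)
    (hu : LinearIndependent ℝ u) :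
    ∃ Y : Matrix (Fin d) (Fin n) ℝ, Y * (Matrix.of u)ᵀ = 1 := by
  classical
  have hinj : Function.Injective (Fintype.linearCombination ℝ u) := by
    rw [← LinearMap.ker_eq_bot, LinearMap.ker_eq_bot']
    intro c hc
    funext i
    exact (Fintype.linearIndependent_iff.1 hu) c
      (by rw [Fintype.linearCombination_apply] at hc; exact hc) i
  obtain ⟨f, hf⟩ := (Fintype.linearCombination ℝ u).exists_leftInverse_of_injective
    (LinearMap.ker_eq_bot.2 hinj)
  have hX : LinearMap.toMatrix' (Fintype.linearCombination ℝ u) = (Matrix.of u)ᵀ := by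
    ext i j
    rw [LinearMap.toMatrix'_apply, Fintype.linearCombination_apply, Matrix.transpose_apply,
      Matrix.of_apply]
    simp [Finset.sum_apply, Pi.single_apply, ite_apply]
  refine ⟨LinearMap.toMatrix' f, ?_⟩
  rw [← hX, ← LinearMap.toMatrix'_comp, hf, LinearMap.toMatrix'_id]

/-- The matrices which map `ℝ^n` into `U` and kill `U`. -/
private def EU {n : ℕ} (U : Submodule ℝ (Fin n → ℝ)) : Submodule ℝ (Fin n → Fin n → ℝ) where
  carrier := {N | (∀ x, Matrix.of N *ᵥ x ∈ U) ∧ ∀ w ∈ U, Matrix.of N *ᵥ w = 0}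
  add_mem' := by
    rintro a b ⟨ha, ha'⟩ ⟨hb, hb'⟩
    refine ⟨fun x => ?_, fun w hw => ?_⟩
    · have : Matrix.of (a + b) *ᵥ x = Matrix.of a *ᵥ x + Matrix.of b *ᵥ x :=
        Matrix.add_mulVec (Matrix.of a) (Matrix.of b) x
      rw [this]
      exact U.add_mem (ha x) (hb x)
    · have : Matrix.of (a + b) *ᵥ w = Matrix.of a *ᵥ w + Matrix.of b *ᵥ w :=
        Matrix.add_mulVec (Matrix.of a) (Matrix.of b) w
      rw [this, ha' w hw, hb' w hw, add_zero]
  zero_mem' := by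
    refine ⟨fun x => ?_, fun w _ => ?_⟩
    · have : Matrix.of (0 : Fin n → Fin n → ℝ) *ᵥ x = 0 := Matrix.zero_mulVec x
      rw [this]
      exact U.zero_mem
    · exact Matrix.zero_mulVec w
  smul_mem' := by
    rintro c a ⟨ha, ha'⟩
    refine ⟨fun x => ?_, fun w hw => ?_⟩
    · have : Matrix.of (c • a) *ᵥ x = c • Matrix.of a *ᵥ x := Matrix.smul_mulVec c (Matrix.of a) x
      rw [this]
      exact U.smul_mem c (ha x)
    · have : Matrix.of (c • a) *ᵥ w = c • Matrix.of a *ᵥ w := Matrix.smul_mulVec c (Matrix.of a) w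
      rw [this, ha' w hw, smul_zero]

theorem core (m n d k : ℕ) (hd : 0 < d) (hdn : d < n) (hk : 0 < k)
    (ψ : SpecialLinearGroup (Fin m) ℝ →* SpecialLinearGroup (Fin n) ℝ)
    (P : (Fin d → Fin n → ℝ) → ℝ) (hP : ContDiff ℝ 1 P) (hP0 : ∃ v, P v ≠ 0)
    (hinv : ∀ (x : SpecialLinearGroup (Fin m) ℝ) (v : Fin d → Fin n → ℝ),
      P (fun j => (ψ x : Matrix (Fin n) (Fin n) ℝ) *ᵥ v j) = P v)
    (hwt : ∀ (A : Matrix (Fin d) (Fin d) ℝ) (v : Fin d → Fin n → ℝ),
      P (fun j => ∑ i, A i j • v i) = A.det ^ k * P v)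
    (Γ₀ : Subgroup (SpecialLinearGroup (Fin n) ℝ))
    (hpd : ∀ K : Set (SpecialLinearGroup (Fin n) ℝ), IsCompact K →
      {γ : Γ₀ | ∃ g ∈ K, ∃ h ∈ ψ.range, (γ : SpecialLinearGroup (Fin n) ℝ) * g * h ∈ K}.Finite)
    (hc : ∃ C : Set (SpecialLinearGroup (Fin n) ℝ), IsCompact C ∧
      ∀ g, ∃ γ ∈ Γ₀, ∃ h ∈ ψ.range, γ * g * h ∈ C)
    (U : Submodule ℝ (Fin n → ℝ)) (hU : finrank ℝ U = d)
    (hinvU : ∀ γ ∈ Γ₀, ∀ u ∈ U, (γ : Matrix (Fin n) (Fin n) ℝ) *ᵥ u ∈ U) : False := by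
  classical
  set G := SpecialLinearGroup (Fin n) ℝ with hG
  borelize G
  set H : Subgroup G := ψ.range.topologicalClosure with hH
  have hcl : IsClosed (H : Set G) := Subgroup.isClosed_topologicalClosure _
  have := sl_lc n
  have := sl_t2 n
  have := sl_sc n
  have : LocallyCompactSpace H := hcl.isClosedEmbedding_subtypeVal.locallyCompactSpace
  set μ : Measure G := Measure.haar with hμ
  have := sl_right n μ
  set ν : Measure H := Measure.haar with hν
  have : ν.IsInvInvariant := closure_inv m n ψ ν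
  -- the weight
  obtain ⟨hcount, κ, hκ, hW, hκfin⟩ := weight μ H hcl ν Γ₀
    (fun K hK => pd_closure ψ.range Γ₀ hpd K hK) (by
      obtain ⟨C, hC, hCg⟩ := hc
      refine ⟨C, hC, fun g => ?_⟩
      obtain ⟨γ, hγ, h, hh, hgh⟩ := hCg g
      exact ⟨γ, hγ, h, Subgroup.le_topologicalClosure _ hh, hgh⟩)
  obtain ⟨π, hπm, hπ1, hπ2, hπ3, hπ4⟩ := proj_exists n d k hk P hP hwt
  -- a basis of U
  let b := Module.finBasisOfFinrankEq ℝ U hU
  let u : Fin d → Fin n → ℝ := fun j => (b j : Fin n → ℝ)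
  have hub : ∀ j, u j ∈ U := fun j => (b j).2
  have huli : LinearIndependent ℝ u := by
    have h := b.linearIndependent.map' U.subtype U.ker_subtype
    exact h
  have huspan : ∀ x ∈ U, ∃ c : Fin d → ℝ, x = ∑ i, c i • u i := by
    intro x hx
    refine ⟨fun i => b.repr ⟨x, hx⟩ i, ?_⟩
    have h := congrArg Subtype.val (b.sum_repr ⟨x, hx⟩)
    rw [Submodule.coe_sum] at h
    exact h.symm
  obtain ⟨Y, hY⟩ := exists_left_inverse u huli
  set X : Matrix (Fin n) (Fin d) ℝ := (Matrix.of u)ᵀ with hX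
  have hXc : ∀ c : Fin d → ℝ, X *ᵥ c = ∑ i, c i • u i := by
    intro c
    ext a
    simp only [Matrix.mulVec, dotProduct, hX, Matrix.transpose_apply, Matrix.of_apply,
      Finset.sum_apply, Pi.smul_apply, smul_eq_mul]
    exact Finset.sum_congr rfl fun i _ => mul_comm _ _
  set π₀ : Matrix (Fin n) (Fin n) ℝ := X * Y with hπ₀
  have hπ₀U : ∀ x, π₀ *ᵥ x ∈ U := by
    intro x
    rw [hπ₀, ← Matrix.mulVec_mulVec, hXc]
    exact U.sum_mem fun i _ => U.smul_mem _ (hub i)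
  have hπ₀f : ∀ w ∈ U, π₀ *ᵥ w = w := by
    intro w hw
    obtain ⟨c, rfl⟩ := huspan w hw
    have h1 : Y *ᵥ (X *ᵥ c) = c := by rw [Matrix.mulVec_mulVec, hY, Matrix.one_mulVec]
    rw [← hXc, hπ₀, ← Matrix.mulVec_mulVec, h1]
  -- elementary rules
  have rule1 : ∀ N Q : Matrix (Fin n) (Fin n) ℝ, (∀ x, N *ᵥ x ∈ U) → (∀ w ∈ U, Q *ᵥ w = w) →
      Q * N = N := fun N Q hN hQ => mat_ext fun x => by
    rw [← Matrix.mulVec_mulVec, hQ _ (hN x)]
  have rule0 : ∀ N Q : Matrix (Fin n) (Fin n) ℝ, (∀ w ∈ U, N *ᵥ w = 0) → (∀ x, Q *ᵥ x ∈ U) →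
      N * Q = 0 := fun N Q hN hQ => mat_ext fun x => by
    rw [← Matrix.mulVec_mulVec, hN _ (hQ x), Matrix.zero_mulVec]
  -- the vectors g⁻¹ u and the projections
  set V : G → (Fin d → Fin n → ℝ) := fun g j =>
    ((g⁻¹ : G) : Matrix (Fin n) (Fin n) ℝ) *ᵥ u j with hV
  have hVc : Continuous V := by
    refine continuous_pi fun j => ?_
    have h1 : Continuous fun g : G => ((g⁻¹ : G) : Matrix (Fin n) (Fin n) ℝ) :=
      continuous_subtype_val.comp continuous_inv
    exact h1.matrix_mulVec continuous_const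
  set S : Set G := {g | P (V g) ≠ 0} with hS
  have hSo : IsOpen S := isOpen_ne_fun (hP.continuous.comp hVc) continuous_const
  have hSm : MeasurableSet S := hSo.measurableSet
  have hSne : S.Nonempty := by
    obtain ⟨v, hv⟩ := hP0
    obtain ⟨g, hg⟩ := Pool.Agent.H21.CQ.exists_frame hdn u v huli (indep_of_ne hk P hwt v hv)
    refine ⟨g⁻¹, ?_⟩
    have h0 : ((g⁻¹ : G)⁻¹ : G) = g := inv_inv g
    have h1 : V g⁻¹ = v := by
      funext j
      show (((g⁻¹ : G)⁻¹ : G) : Matrix (Fin n) (Fin n) ℝ) *ᵥ u j = v j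
      rw [h0]
      exact hg j
    show P (V g⁻¹) ≠ 0
    rw [h1]
    exact hv
  have hμS : μ S ≠ 0 := (hSo.measure_pos μ hSne).ne'
  set pg : G → Matrix (Fin n) (Fin n) ℝ := fun g =>
    (g : Matrix (Fin n) (Fin n) ℝ) * Matrix.of (π (V g)) *
      ((g⁻¹ : G) : Matrix (Fin n) (Fin n) ℝ) with hpg
  have hgi : ∀ g : G, (g : Matrix (Fin n) (Fin n) ℝ) * ((g⁻¹ : G) : Matrix (Fin n) (Fin n) ℝ) = 1 := by
    intro g
    rw [← Matrix.SpecialLinearGroup.coe_mul, mul_inv_cancel, Matrix.SpecialLinearGroup.coe_one]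
  have hig : ∀ g : G, ((g⁻¹ : G) : Matrix (Fin n) (Fin n) ℝ) * (g : Matrix (Fin n) (Fin n) ℝ) = 1 := by
    intro g
    rw [← Matrix.SpecialLinearGroup.coe_mul, inv_mul_cancel, Matrix.SpecialLinearGroup.coe_one]
  have hpgU : ∀ g x, pg g *ᵥ x ∈ U := by
    intro g x
    have h1 := hπ2 (V g) (((g⁻¹ : G) : Matrix (Fin n) (Fin n) ℝ) *ᵥ x)
    rw [Submodule.mem_span_range_iff_exists_fun] at h1
    obtain ⟨c, hc1⟩ := h1
    have h2 : pg g *ᵥ x = ∑ j, c j • u j := by
      rw [hpg]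
      simp only
      rw [← Matrix.mulVec_mulVec, ← Matrix.mulVec_mulVec, ← hc1, Matrix.mulVec_sum]
      refine Finset.sum_congr rfl fun j _ => ?_
      rw [Matrix.mulVec_smul]
      simp only [hV]
      rw [Matrix.mulVec_mulVec, hgi, Matrix.one_mulVec]
    rw [h2]
    exact U.sum_mem fun i _ => U.smul_mem _ (hub i)
  have hpgf : ∀ g ∈ S, ∀ w ∈ U, pg g *ᵥ w = w := by
    intro g hg w hw
    obtain ⟨c, rfl⟩ := huspan w hw
    rw [Matrix.mulVec_sum]
    refine Finset.sum_congr rfl fun j _ => ?_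
    rw [Matrix.mulVec_smul]
    congr 1
    rw [hpg]
    simp only
    rw [← Matrix.mulVec_mulVec, ← Matrix.mulVec_mulVec]
    have h1 := hπ1 (V g) hg j
    simp only [hV] at h1 ⊢
    rw [h1, Matrix.mulVec_mulVec, hgi, Matrix.one_mulVec]
  -- the unipotent radical
  have hEprop : ∀ N : EU U, (∀ x, Matrix.of (N : Fin n → Fin n → ℝ) *ᵥ x ∈ U) ∧
      ∀ w ∈ U, Matrix.of (N : Fin n → Fin n → ℝ) *ᵥ w = 0 := fun N => N.2
  have hdetE : ∀ N : EU U, (1 + Matrix.of (N : Fin n → Fin n → ℝ)).det = 1 := by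
    intro N
    have h1 : π₀ * Matrix.of (N : Fin n → Fin n → ℝ) = Matrix.of (N : Fin n → Fin n → ℝ) :=
      rule1 _ _ (hEprop N).1 hπ₀f
    have h2 : Matrix.of (N : Fin n → Fin n → ℝ) * π₀ = 0 := rule0 _ _ (hEprop N).2 hπ₀U
    rw [← h1, Matrix.det_one_add_mul_comm, h2, add_zero, Matrix.det_one]
  set ι : EU U → G := fun N => ⟨1 + Matrix.of (N : Fin n → Fin n → ℝ), hdetE N⟩ with hι
  have hιval : ∀ N, ((ι N : G) : Matrix (Fin n) (Fin n) ℝ) =
      1 + Matrix.of (N : Fin n → Fin n → ℝ) := fun N => rfl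
  have hιc : Continuous ι := by
    refine Continuous.subtype_mk ?_ _
    exact continuous_const.add (continuous_subtype_val)
  have hNM : ∀ N M : EU U, Matrix.of (N : Fin n → Fin n → ℝ) *
      Matrix.of (M : Fin n → Fin n → ℝ) = 0 := fun N M =>
    rule0 _ _ (hEprop N).2 (hEprop M).1
  have hιadd : ∀ v w, ι (v + w) = ι v * ι w := by
    intro v w
    apply Subtype.ext
    have h1 : ((ι v * ι w : G) : Matrix (Fin n) (Fin n) ℝ) =
        (1 + Matrix.of (v : Fin n → Fin n → ℝ)) * (1 + Matrix.of (w : Fin n → Fin n → ℝ)) := rfl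
    have h2 : ((ι (v + w) : G) : Matrix (Fin n) (Fin n) ℝ) =
        1 + (Matrix.of (v : Fin n → Fin n → ℝ) + Matrix.of (w : Fin n → Fin n → ℝ)) := rfl
    show ((ι (v + w) : G) : Matrix (Fin n) (Fin n) ℝ) = ((ι v * ι w : G) : Matrix (Fin n) (Fin n) ℝ)
    rw [h1, h2, add_mul, mul_add, mul_add, hNM, one_mul, one_mul, mul_one, add_zero]
    abel
  have hι0 : ι 0 = 1 := by
    have h := hιadd 0 0
    rw [add_zero] at h
    exact (mul_eq_left.1 h.symm)
  have hιneg : ∀ v, ι (-v) = (ι v)⁻¹ := by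
    intro v
    rw [eq_inv_iff_mul_eq_one, ← hιadd, neg_add_cancel, hι0]
  -- the element z
  have hn0 : n - d ≠ 0 := by omega
  set a : ℝ := 2 ^ (n - d) with ha
  set e : ℝ := ((2 : ℝ) ^ d)⁻¹ with he
  have ha0 : 0 < a := by positivity
  have he0 : 0 < e := by positivity
  have hae : a ^ d * e ^ (n - d) = 1 := by
    rw [ha, he, ← pow_mul, inv_pow, ← pow_mul, mul_comm (n - d) d]
    exact mul_inv_cancel₀ (by positivity)
  have hzdet : (e • (1 : Matrix (Fin n) (Fin n) ℝ) + (a - e) • π₀).det = 1 := by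
    have h1 : e • (1 : Matrix (Fin n) (Fin n) ℝ) + (a - e) • π₀ =
        e • (1 + X * (((a - e) / e) • Y)) := by
      rw [smul_add, Matrix.mul_smul, smul_smul, mul_div_cancel₀ _ he0.ne', hπ₀]
    have h2 : (1 : Matrix (Fin d) (Fin d) ℝ) + (((a - e) / e) • Y) * X =
        (a / e) • (1 : Matrix (Fin d) (Fin d) ℝ) := by
      rw [Matrix.smul_mul, hY]
      have h3 : (1 : Matrix (Fin d) (Fin d) ℝ) = (1 : ℝ) • (1 : Matrix (Fin d) (Fin d) ℝ) :=
        (one_smul _ _).symm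
      nth_rewrite 1 [h3]
      rw [← add_smul]
      congr 1
      field_simp
      ring
    rw [h1, Matrix.det_smul, Matrix.det_one_add_mul_comm, h2, Matrix.det_smul, Matrix.det_one,
      Fintype.card_fin, Fintype.card_fin, mul_one, div_pow]
    have h4 : e ^ n = e ^ d * e ^ (n - d) := by rw [← pow_add]; congr 1; omega
    rw [h4]
    have h5 : e ^ d ≠ 0 := pow_ne_zero _ he0.ne'
    calc e ^ d * e ^ (n - d) * (a ^ d / e ^ d) = a ^ d * e ^ (n - d) * (e ^ d / e ^ d) := by ring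
      _ = 1 := by rw [hae, div_self h5, one_mul]
  set z : G := ⟨e • (1 : Matrix (Fin n) (Fin n) ℝ) + (a - e) • π₀, hzdet⟩ with hz
  have hzval : ((z : G) : Matrix (Fin n) (Fin n) ℝ) =
      e • (1 : Matrix (Fin n) (Fin n) ℝ) + (a - e) • π₀ := rfl
  set c : ℝ := a / e with hc'
  have hc0 : 0 < c := div_pos ha0 he0
  have hc1 : 1 < c := by
    have h1 : (1 : ℝ) < a := one_lt_pow₀ (by norm_num) hn0
    have h2 : e ≤ 1 := inv_le_one_of_one_le₀ (one_le_pow₀ (by norm_num))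
    rw [hc', lt_div_iff₀ he0, one_mul]
    linarith
  have hzι : ∀ v, z * ι v * z⁻¹ = ι (c • v) := by
    intro v
    rw [mul_inv_eq_iff_eq_mul]
    apply Subtype.ext
    set N : Matrix (Fin n) (Fin n) ℝ := Matrix.of (v : Fin n → Fin n → ℝ) with hN
    have h1 : π₀ * N = N := rule1 _ _ (hEprop v).1 hπ₀f
    have h2 : N * π₀ = 0 := rule0 _ _ (hEprop v).2 hπ₀U
    show (e • (1 : Matrix (Fin n) (Fin n) ℝ) + (a - e) • π₀) * (1 + N) =
      (1 + c • N) * (e • (1 : Matrix (Fin n) (Fin n) ℝ) + (a - e) • π₀)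
    have h3 : (e • (1 : Matrix (Fin n) (Fin n) ℝ) + (a - e) • π₀) * N = a • N := by
      rw [add_mul, Matrix.smul_mul, Matrix.smul_mul, h1, one_mul, ← add_smul]
      congr 1
      ring
    have h4 : (c • N) * (e • (1 : Matrix (Fin n) (Fin n) ℝ) + (a - e) • π₀) = a • N := by
      rw [mul_add, Matrix.mul_smul, Matrix.mul_smul, Matrix.smul_mul, Matrix.smul_mul, h2,
        smul_zero, smul_zero, add_zero, mul_one, smul_smul, hc']
      congr 1
      field_simp
    rw [mul_add, mul_one, h3, add_mul, one_mul, h4]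
  -- invariance of S
  have hVmul : ∀ (x g : G), V (x * g) = fun j =>
      ((g⁻¹ : G) : Matrix (Fin n) (Fin n) ℝ) *ᵥ
        (((x⁻¹ : G) : Matrix (Fin n) (Fin n) ℝ) *ᵥ u j) := by
    intro x g
    funext j
    show (((x * g)⁻¹ : G) : Matrix (Fin n) (Fin n) ℝ) *ᵥ u j = _
    rw [Matrix.mulVec_mulVec, ← Matrix.SpecialLinearGroup.coe_mul, ← _root_.mul_inv_rev]
  have hVι : ∀ v g, V (ι v * g) = V g := by
    intro v g
    rw [hVmul]
    funext j
    have h1 : (((ι v)⁻¹ : G) : Matrix (Fin n) (Fin n) ℝ) *ᵥ u j = u j := by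
      rw [← hιneg, hιval, Matrix.add_mulVec, Matrix.one_mulVec, (hEprop (-v)).2 _ (hub j),
        add_zero]
    rw [h1]
  have hSι : ∀ v g, ι v * g ∈ S ↔ g ∈ S := by
    intro v g
    show P (V (ι v * g)) ≠ 0 ↔ P (V g) ≠ 0
    rw [hVι]
  have hzu : ∀ j, (z : Matrix (Fin n) (Fin n) ℝ) *ᵥ u j = a • u j := by
    intro j
    rw [hzval, Matrix.add_mulVec, Matrix.smul_mulVec, Matrix.smul_mulVec, Matrix.one_mulVec,
      hπ₀f _ (hub j), ← add_smul]
    congr 1
    ring
  have hzu' : ∀ j, ((z⁻¹ : G) : Matrix (Fin n) (Fin n) ℝ) *ᵥ u j = a⁻¹ • u j := by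
    intro j
    have h1 : ((z⁻¹ : G) : Matrix (Fin n) (Fin n) ℝ) *ᵥ (a • u j) = u j := by
      rw [← hzu, Matrix.mulVec_mulVec, hig, Matrix.one_mulVec]
    rw [Matrix.mulVec_smul] at h1
    calc ((z⁻¹ : G) : Matrix (Fin n) (Fin n) ℝ) *ᵥ u j
        = a⁻¹ • (a • (((z⁻¹ : G) : Matrix (Fin n) (Fin n) ℝ) *ᵥ u j)) := by
          rw [smul_smul, inv_mul_cancel₀ ha0.ne', one_smul]
      _ = a⁻¹ • u j := by rw [h1]
  have hsc : ∀ (t : ℝ) (v : Fin d → Fin n → ℝ),
      (fun j => t • v j) = fun j => ∑ i, (t • (1 : Matrix (Fin d) (Fin d) ℝ)) i j • v i := by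
    intro t v
    funext j
    have h1 : ∀ i, (t • (1 : Matrix (Fin d) (Fin d) ℝ)) i j • v i = if i = j then t • v i else 0 := by
      intro i
      rw [Matrix.smul_apply, Matrix.one_apply]
      split_ifs <;> simp
    rw [Finset.sum_congr rfl fun i _ => h1 i]
    simp
  have hSz : ∀ g, z * g ∈ S ↔ g ∈ S := by
    intro g
    show P (V (z * g)) ≠ 0 ↔ P (V g) ≠ 0
    have h1 : V (z * g) = fun j => ∑ i, (a⁻¹ • (1 : Matrix (Fin d) (Fin d) ℝ)) i j • V g i := by
      rw [← hsc, hVmul]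
      funext j
      rw [hzu', Matrix.mulVec_smul]
    rw [h1, hwt, Matrix.det_smul, Matrix.det_one, mul_one]
    have h2 : (a⁻¹ ^ Fintype.card (Fin d)) ^ k ≠ 0 := by positivity
    constructor
    · intro h h3
      exact h (by rw [h3, mul_zero])
    · intro h
      exact mul_ne_zero h2 h
  -- the action of Γ₀ and H on V
  have hVΓ : ∀ γ ∈ Γ₀, ∃ A : Matrix (Fin d) (Fin d) ℝ, A.det ≠ 0 ∧
      ∀ g, V (γ * g) = fun j => ∑ i, A i j • V g i := by
    intro γ hγ
    have hγi : γ⁻¹ ∈ Γ₀ := Γ₀.inv_mem hγ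
    set B : Matrix (Fin d) (Fin d) ℝ := Y * (γ : Matrix (Fin n) (Fin n) ℝ) * X with hB
    set A : Matrix (Fin d) (Fin d) ℝ := Y * ((γ⁻¹ : G) : Matrix (Fin n) (Fin n) ℝ) * X with hA
    have hcols : ∀ j, X *ᵥ (Pi.single j 1) = u j := by
      intro j
      rw [hXc]
      simp [Pi.single_apply, ite_smul]
    have hXAB : ∀ x ∈ Γ₀, X * (Y * (x : Matrix (Fin n) (Fin n) ℝ) * X) =
        (x : Matrix (Fin n) (Fin n) ℝ) * X := by
      intro x hx
      apply Matrix.toLin'.injective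
      apply LinearMap.pi_ext'
      intro j
      apply LinearMap.ext_ring
      simp only [LinearMap.comp_apply, LinearMap.single_apply, Matrix.toLin'_apply]
      have h2 : ((x : Matrix (Fin n) (Fin n) ℝ) * X) *ᵥ (Pi.single j 1) =
          (x : Matrix (Fin n) (Fin n) ℝ) *ᵥ u j := by
        rw [← Matrix.mulVec_mulVec, hcols]
      have h1 : (X * (Y * (x : Matrix (Fin n) (Fin n) ℝ) * X)) *ᵥ (Pi.single j 1) =
          π₀ *ᵥ (((x : Matrix (Fin n) (Fin n) ℝ) * X) *ᵥ (Pi.single j 1)) := by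
        rw [Matrix.mulVec_mulVec, hπ₀]
        simp only [Matrix.mul_assoc]
      exact h1.trans (by rw [h2]; exact hπ₀f _ (hinvU x hx _ (hub j)))
    have hBA : B * A = 1 := by
      have h1 : B * A = Y * (((γ : G) : Matrix (Fin n) (Fin n) ℝ) * (X *
          (Y * ((γ⁻¹ : G) : Matrix (Fin n) (Fin n) ℝ) * X))) := by
        rw [hB, hA]
        simp only [Matrix.mul_assoc]
      rw [h1, hXAB _ hγi, ← Matrix.mul_assoc _ _ X, hgi, Matrix.one_mul, hY]
    refine ⟨A, ?_, ?_⟩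
    · intro h0
      have h1 := congrArg Matrix.det hBA
      rw [Matrix.det_mul, h0, mul_zero, Matrix.det_one] at h1
      exact zero_ne_one h1
    · intro g
      rw [hVmul]
      funext j
      have h1 : ((γ⁻¹ : G) : Matrix (Fin n) (Fin n) ℝ) *ᵥ u j = ∑ i, A i j • u i := by
        rw [← hcols, Matrix.mulVec_mulVec, ← hXAB _ hγi, ← Matrix.mulVec_mulVec, hXc]
        refine Finset.sum_congr rfl fun i _ => ?_
        congr 1
        rw [Matrix.mulVec_single_one]
        rfl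
      rw [h1, Matrix.mulVec_sum]
      refine Finset.sum_congr rfl fun i _ => ?_
      rw [Matrix.mulVec_smul]
  have hVH : ∀ h ∈ H, ∀ g, V (g * h) = fun j =>
      ((h⁻¹ : G) : Matrix (Fin n) (Fin n) ℝ) *ᵥ V g j := by
    intro h _ g
    funext j
    show (((g * h)⁻¹ : G) : Matrix (Fin n) (Fin n) ℝ) *ᵥ u j = _
    simp only [hV]
    rw [Matrix.mulVec_mulVec, ← Matrix.SpecialLinearGroup.coe_mul, ← _root_.mul_inv_rev]
  have hPH : ∀ h ∈ H, ∀ v, P (fun j => ((h : G) : Matrix (Fin n) (Fin n) ℝ) *ᵥ v j) = P v := by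
    intro h hh v
    have hcont : Continuous fun g : G => P (fun j => (g : Matrix (Fin n) (Fin n) ℝ) *ᵥ v j) := by
      refine hP.continuous.comp (continuous_pi fun j => ?_)
      have h1 : Continuous fun g : G => (g : Matrix (Fin n) (Fin n) ℝ) := continuous_subtype_val
      exact h1.matrix_mulVec continuous_const
    have hcs : IsClosed {g : G | P (fun j => (g : Matrix (Fin n) (Fin n) ℝ) *ᵥ v j) = P v} :=
      isClosed_eq hcont continuous_const
    have hsub : (ψ.range : Set G) ⊆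
        {g : G | P (fun j => (g : Matrix (Fin n) (Fin n) ℝ) *ᵥ v j) = P v} := by
      rintro _ ⟨x, rfl⟩
      exact hinv x v
    exact closure_minimal hsub hcs hh
  have hSΓ : ∀ γ ∈ Γ₀, ∀ g, γ * g ∈ S ↔ g ∈ S := by
    intro γ hγ g
    obtain ⟨A, hA0, hA⟩ := hVΓ γ hγ
    show P (V (γ * g)) ≠ 0 ↔ P (V g) ≠ 0
    rw [hA, hwt]
    constructor
    · intro h h3
      exact h (by rw [h3, mul_zero])
    · intro h
      exact mul_ne_zero (pow_ne_zero _ hA0) h
  have hSH : ∀ h ∈ H, ∀ g, g * h ∈ S ↔ g ∈ S := by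
    intro h hh g
    show P (V (g * h)) ≠ 0 ↔ P (V g) ≠ 0
    rw [hVH h hh, hPH _ (H.inv_mem hh)]
  -- equivariance of the projections
  have hpge : ∀ γ ∈ Γ₀, ∀ h ∈ H, ∀ g, pg (γ * g * h) =
      (γ : Matrix (Fin n) (Fin n) ℝ) * pg g * ((γ⁻¹ : G) : Matrix (Fin n) (Fin n) ℝ) := by
    intro γ hγ h hh g
    obtain ⟨A, hA0, hA⟩ := hVΓ γ hγ
    have h1 : Matrix.of (π (V (γ * g * h))) = ((h⁻¹ : G) : Matrix (Fin n) (Fin n) ℝ) *
        Matrix.of (π (V g)) * ((h : G) : Matrix (Fin n) (Fin n) ℝ) := by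
      rw [hVH h hh, hπ4 _ (h⁻¹).2 (hPH _ (H.inv_mem hh)), hA, hπ3 _ _ hA0]
      congr 1
      apply Matrix.inv_eq_left_inv
      exact hgi h
    simp only [hpg]
    rw [h1, Matrix.SpecialLinearGroup.coe_mul, Matrix.SpecialLinearGroup.coe_mul,
      _root_.mul_inv_rev, _root_.mul_inv_rev, Matrix.SpecialLinearGroup.coe_mul,
      Matrix.SpecialLinearGroup.coe_mul]
    calc (γ : Matrix (Fin n) (Fin n) ℝ) * (g : Matrix (Fin n) (Fin n) ℝ) * (h : Matrix (Fin n) (Fin n) ℝ) *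
        (((h⁻¹ : G) : Matrix (Fin n) (Fin n) ℝ) * Matrix.of (π (V g)) * (h : Matrix (Fin n) (Fin n) ℝ)) *
        (((h⁻¹ : G) : Matrix (Fin n) (Fin n) ℝ) * (((g⁻¹ : G) : Matrix (Fin n) (Fin n) ℝ) *
          ((γ⁻¹ : G) : Matrix (Fin n) (Fin n) ℝ)))
        = (γ : Matrix (Fin n) (Fin n) ℝ) * (g : Matrix (Fin n) (Fin n) ℝ) *
          ((h : Matrix (Fin n) (Fin n) ℝ) * ((h⁻¹ : G) : Matrix (Fin n) (Fin n) ℝ)) *
          Matrix.of (π (V g)) * ((h : Matrix (Fin n) (Fin n) ℝ) * ((h⁻¹ : G) : Matrix (Fin n) (Fin n) ℝ)) *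
          ((g⁻¹ : G) : Matrix (Fin n) (Fin n) ℝ) * ((γ⁻¹ : G) : Matrix (Fin n) (Fin n) ℝ) := by
          simp only [Matrix.mul_assoc]
      _ = _ := by
          rw [hgi, Matrix.mul_one, Matrix.mul_one]
          simp only [Matrix.mul_assoc]
  have hpgι : ∀ v, ∀ g ∈ S, pg (ι v * g) = pg g - Matrix.of (v : Fin n → Fin n → ℝ) := by
    intro v g hg
    simp only [hpg]
    rw [hVι, Matrix.SpecialLinearGroup.coe_mul, _root_.mul_inv_rev, ← hιneg,
      Matrix.SpecialLinearGroup.coe_mul, hιval, hιval]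
    set N : Matrix (Fin n) (Fin n) ℝ := Matrix.of (v : Fin n → Fin n → ℝ) with hN
    have h0 : Matrix.of ((-v : EU U) : Fin n → Fin n → ℝ) = -N := rfl
    have h1 : N * pg g = 0 := rule0 _ _ (hEprop v).2 (hpgU g)
    have h2 : pg g * N = N := rule1 _ _ (hEprop v).1 (hpgf g hg)
    rw [h0]
    calc (1 + N) * (g : Matrix (Fin n) (Fin n) ℝ) * Matrix.of (π (V g)) *
        (((g⁻¹ : G) : Matrix (Fin n) (Fin n) ℝ) * (1 + -N))
        = (1 + N) * pg g * (1 + -N) := by simp only [hpg, Matrix.mul_assoc]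
      _ = pg g - N := by
          rw [add_mul, one_mul, h1, add_zero, mul_add, mul_one, mul_neg, h2, sub_eq_add_neg]
  -- the affine coordinate θ
  obtain ⟨R, hR⟩ := (EU U).subtype.exists_leftInverse_of_injective (EU U).ker_subtype
  have hR' : ∀ N : EU U, R (N : Fin n → Fin n → ℝ) = N := fun N => by
    have h := LinearMap.congr_fun hR N
    simpa using h
  have hRc : Continuous R := LinearMap.continuous_of_finiteDimensional R
  set τ : G → (Fin n → Fin n → ℝ) := fun g => Matrix.of.symm (π₀ - pg g) with hτ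
  have hpgm : Measurable fun g => Matrix.of.symm (pg g) := by
    have h1 : Measurable fun g => π (V g) := hπm.comp hVc.measurable
    have c1 : Continuous fun g : G => (g : Matrix (Fin n) (Fin n) ℝ) := continuous_subtype_val
    have c2 : Continuous fun g : G => ((g⁻¹ : G) : Matrix (Fin n) (Fin n) ℝ) :=
      c1.comp continuous_inv
    refine measurable_pi_lambda _ fun i => measurable_pi_lambda _ fun j => ?_
    show Measurable fun g => pg g i j
    simp only [hpg, Matrix.mul_apply, Matrix.of_apply]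
    refine Finset.measurable_sum _ fun p _ => ?_
    refine Measurable.mul ?_ ?_
    · refine Finset.measurable_sum _ fun q _ => ?_
      refine Measurable.mul ?_ ?_
      · exact (c1.matrix_elem i q).measurable
      · exact (measurable_pi_apply p).comp ((measurable_pi_apply q).comp h1)
    · exact (c2.matrix_elem p j).measurable
  have hτm : Measurable τ := by
    have h1 : τ = fun g => Matrix.of.symm π₀ - Matrix.of.symm (pg g) := rfl
    rw [h1]
    exact measurable_const.sub hpgm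
  borelize ↥(EU U)
  set θ : G → EU U := fun g => R (τ g) with hθ
  have hθm : Measurable θ := hRc.measurable.comp hτm
  have hτE : ∀ g ∈ S, τ g ∈ EU U := by
    intro g hg
    refine ⟨fun x => ?_, fun w hw => ?_⟩
    · show (π₀ - pg g) *ᵥ x ∈ U
      rw [Matrix.sub_mulVec]
      exact U.sub_mem (hπ₀U x) (hpgU g x)
    · show (π₀ - pg g) *ᵥ w = 0
      rw [Matrix.sub_mulVec, hπ₀f w hw, hpgf g hg w hw, sub_self]
  have hθval : ∀ g ∈ S, ((θ g : EU U) : Fin n → Fin n → ℝ) = τ g := by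
    intro g hg
    have h1 := hR' ⟨τ g, hτE g hg⟩
    show ((R (τ g) : EU U) : Fin n → Fin n → ℝ) = τ g
    have h2 : R (τ g) = ⟨τ g, hτE g hg⟩ := h1
    rw [h2]
  have hθι : ∀ v, ∀ g ∈ S, θ (ι v * g) = v + θ g := by
    intro v g hg
    apply Subtype.ext
    rw [hθval _ ((hSι v g).2 hg), Submodule.coe_add, hθval g hg]
    show Matrix.of.symm (π₀ - pg (ι v * g)) = (v : Fin n → Fin n → ℝ) + Matrix.of.symm (π₀ - pg g)
    rw [hpgι v g hg]
    ext i j
    simp
    ring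
  -- the map Φ
  set Φ : G → G := fun g => ι (θ g) * z * ι (-θ g) * g with hΦ
  have hΦm : Measurable Φ := by
    have h1 : Measurable fun g => ι (θ g) := hιc.measurable.comp hθm
    have h2 : Measurable fun g => ι (-θ g) := hιc.measurable.comp hθm.neg
    exact ((h1.mul measurable_const).mul h2).mul measurable_id
  have hΦS : ∀ g ∈ S, Φ g ∈ S := by
    intro g hg
    show ι (θ g) * z * ι (-θ g) * g ∈ S
    rw [mul_assoc, mul_assoc, hSι, hSz, hSι]
    exact hg
  have hΦval : ∀ g ∈ S, (Φ g : Matrix (Fin n) (Fin n) ℝ) =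
      (e • (1 : Matrix (Fin n) (Fin n) ℝ) + (a - e) • pg g) * (g : Matrix (Fin n) (Fin n) ℝ) := by
    intro g hg
    have h1 : Matrix.of ((θ g : EU U) : Fin n → Fin n → ℝ) = π₀ - pg g := by
      rw [hθval g hg]; rfl
    have h1' : Matrix.of ((-θ g : EU U) : Fin n → Fin n → ℝ) = -(π₀ - pg g) := by
      rw [← h1]; rfl
    have h2 : (Φ g : Matrix (Fin n) (Fin n) ℝ) = (1 + (π₀ - pg g)) *
        (e • (1 : Matrix (Fin n) (Fin n) ℝ) + (a - e) • π₀) * (1 + -(π₀ - pg g)) *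
          (g : Matrix (Fin n) (Fin n) ℝ) := by
      rw [← h1]
      rfl
    set N : Matrix (Fin n) (Fin n) ℝ := π₀ - pg g with hN
    have hNU : ∀ x, N *ᵥ x ∈ U := (hτE g hg).1
    have hNk : ∀ w ∈ U, N *ᵥ w = 0 := (hτE g hg).2
    have h3 : π₀ * N = N := rule1 _ _ hNU hπ₀f
    have h4 : N * π₀ = 0 := rule0 _ _ hNk hπ₀U
    have h5 : N * N = 0 := rule0 _ _ hNk hNU
    have h7 : pg g = π₀ - N := by rw [hN]; abel
    rw [h2]
    clear_value N
    congr 1
    have h6 : (1 + N) * (e • (1 : Matrix (Fin n) (Fin n) ℝ) + (a - e) • π₀) =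
        e • (1 : Matrix (Fin n) (Fin n) ℝ) + (a - e) • π₀ + e • N := by
      rw [add_mul, one_mul, mul_add, Matrix.mul_smul, Matrix.mul_smul, h4, smul_zero, add_zero,
        mul_one]
    rw [h6, mul_add, mul_one, mul_neg, add_mul, add_mul, Matrix.smul_mul, Matrix.smul_mul,
      Matrix.smul_mul, one_mul, h3, h5, smul_zero, add_zero, ← add_smul]
    rw [h7, smul_sub]
    have h8 : (e + (a - e)) • N = a • N := by congr 1; ring
    have h9 : (a - e) • N = a • N - e • N := sub_smul _ _ _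
    rw [h8, h9]
    abel
  have hΦe : ∀ γ ∈ Γ₀, ∀ h ∈ H, ∀ g ∈ S, Φ (γ * g * h) = γ * Φ g * h := by
    intro γ hγ h hh g hg
    have hg' : γ * g * h ∈ S := (hSH h hh _).2 ((hSΓ γ hγ _).2 hg)
    apply Subtype.ext
    show ((Φ (γ * g * h) : G) : Matrix (Fin n) (Fin n) ℝ) = ((γ * Φ g * h : G) : Matrix (Fin n) (Fin n) ℝ)
    rw [hΦval _ hg', hpge γ hγ h hh, Matrix.SpecialLinearGroup.coe_mul,
      Matrix.SpecialLinearGroup.coe_mul, Matrix.SpecialLinearGroup.coe_mul,
      Matrix.SpecialLinearGroup.coe_mul, hΦval g hg]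
    have h1 : (e • (1 : Matrix (Fin n) (Fin n) ℝ) + (a - e) •
        ((γ : Matrix (Fin n) (Fin n) ℝ) * pg g * ((γ⁻¹ : G) : Matrix (Fin n) (Fin n) ℝ))) *
        (γ : Matrix (Fin n) (Fin n) ℝ) = (γ : Matrix (Fin n) (Fin n) ℝ) *
          (e • (1 : Matrix (Fin n) (Fin n) ℝ) + (a - e) • pg g) := by
      rw [add_mul, mul_add, Matrix.smul_mul, Matrix.smul_mul, Matrix.mul_smul, Matrix.mul_smul,
        one_mul, mul_one, Matrix.mul_assoc _ _ (γ : Matrix (Fin n) (Fin n) ℝ), hig, Matrix.mul_one]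
    rw [← Matrix.mul_assoc, ← Matrix.mul_assoc, h1]
    simp only [Matrix.mul_assoc]
  -- the dimension of the unipotent radical
  have hfE : finrank ℝ (EU U) ≠ 0 := by
    intro h0
    have h1 : Subsingleton (EU U) := finrank_zero_iff.1 h0
    have h2 : (1 : Matrix (Fin n) (Fin n) ℝ) - π₀ = 0 := by
      ext i b
      have h3 : (fun a b => u ⟨0, hd⟩ a * (1 - π₀) i b) ∈ EU U := by
        refine ⟨fun x => ?_, fun w hw => ?_⟩
        · have h4 : Matrix.of (fun a b => u ⟨0, hd⟩ a * (1 - π₀) i b) *ᵥ x =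
              (((1 - π₀) *ᵥ x) i) • u ⟨0, hd⟩ := by
            ext a
            simp only [Matrix.mulVec, dotProduct, Matrix.of_apply, Pi.smul_apply, smul_eq_mul,
              Finset.sum_mul]
            exact Finset.sum_congr rfl fun j _ => by ring
          rw [h4]
          exact U.smul_mem _ (hub _)
        · have h4 : Matrix.of (fun a b => u ⟨0, hd⟩ a * (1 - π₀) i b) *ᵥ w =
              (((1 - π₀) *ᵥ w) i) • u ⟨0, hd⟩ := by
            ext a
            simp only [Matrix.mulVec, dotProduct, Matrix.of_apply, Pi.smul_apply, smul_eq_mul,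
              Finset.sum_mul]
            exact Finset.sum_congr rfl fun j _ => by ring
          rw [h4, Matrix.sub_mulVec, Matrix.one_mulVec, hπ₀f w hw, sub_self, Pi.zero_apply,
            zero_smul]
      have h5 : (⟨_, h3⟩ : EU U) = 0 := Subsingleton.elim _ _
      have h6 : (fun a b => u ⟨0, hd⟩ a * (1 - π₀) i b) = (0 : Fin n → Fin n → ℝ) :=
        congrArg Subtype.val h5
      obtain ⟨a, ha⟩ : ∃ a, u ⟨0, hd⟩ a ≠ 0 := by
        by_contra hcon
        push Not at hcon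
        exact huli.ne_zero ⟨0, hd⟩ (funext hcon)
      have h7 := congrFun (congrFun h6 a) b
      simpa [ha] using h7
    have h8 : U = ⊤ := by
      rw [eq_top_iff]
      intro x _
      have h9 := hπ₀U x
      have h10 : π₀ = 1 := (sub_eq_zero.1 h2).symm
      rwa [h10, Matrix.one_mulVec] at h9
    rw [h8, finrank_top, finrank_fin_fun] at hU
    omega
  have := hcount
  have : SecondCountableTopology G := ‹SecondCountableTopology (Matrix.SpecialLinearGroup (Fin n) ℝ)›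
  have : SecondCountableTopology H := TopologicalSpace.Subtype.secondCountableTopology _
  have : SigmaCompactSpace H := sigmaCompactSpace_of_locallyCompact_secondCountable
  have : SigmaFinite ν := Measure.IsHaarMeasure.sigmaFinite ν
  refine no_scaling μ H ν Γ₀ S hSm hμS hSΓ hSH Φ hΦm hΦS hΦe
    (ENNReal.ofReal (c ^ finrank ℝ (EU U))) ?_ ?_ κ hκ (fun g _ => hW g) ?_
  · have h1 : 1 < c ^ finrank ℝ (EU U) := one_lt_pow₀ hc1 hfE
    intro h2
    rw [ENNReal.ofReal_eq_one] at h2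
    exact h1.ne' h2
  · intro f hf
    exact scaling μ (Measure.addHaar : Measure (EU U)) ι hιc hιadd z c hc0 hzι S hSm hSι hSz θ hθm
      hθι f hf
  · exact ne_top_of_le_ne_top hκfin (setLIntegral_le_lintegral _ _)

theorem main (m n d k : ℕ) (hd : 0 < d) (hdn : d < n) (hk : 0 < k)
    (ψ : SpecialLinearGroup (Fin m) ℝ →* SpecialLinearGroup (Fin n) ℝ)
    (P : (Fin d → Fin n → ℝ) → ℝ) (hP : ContDiff ℝ 1 P) (hP0 : ∃ v, P v ≠ 0)
    (hinv : ∀ (x : SpecialLinearGroup (Fin m) ℝ) (v : Fin d → Fin n → ℝ),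
      P (fun j => (ψ x : Matrix (Fin n) (Fin n) ℝ) *ᵥ v j) = P v)
    (hwt : ∀ (A : Matrix (Fin d) (Fin d) ℝ) (v : Fin d → Fin n → ℝ),
      P (fun j => ∑ i, A i j • v i) = A.det ^ k * P v)
    (Γ : Subgroup (SpecialLinearGroup (Fin n) ℝ))
    (hpd : ∀ K : Set (SpecialLinearGroup (Fin n) ℝ ⧸ ψ.range), IsCompact K →
      {γ : Γ | ∃ x ∈ K, γ • x ∈ K}.Finite)
    (hc : CompactSpace (MulAction.orbitRel.Quotient Γ (SpecialLinearGroup (Fin n) ℝ ⧸ ψ.range)))
    (Γ₀ : Subgroup (SpecialLinearGroup (Fin n) ℝ)) (hΓ : Γ₀ ≤ Γ) (hfin : Γ₀.relIndex Γ ≠ 0)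
    (U : Submodule ℝ (Fin n → ℝ)) (hU : finrank ℝ U = d)
    (hinvU : ∀ γ ∈ Γ₀, ∀ u ∈ U, (γ : Matrix (Fin n) (Fin n) ℝ) *ᵥ u ∈ U) : False := by
  have := sl_lc n
  exact core m n d k hd hdn hk ψ P hP hP0 hinv hwt Γ₀
    (fun K hK => pd_lift ψ.range Γ Γ₀ hΓ hpd K hK) (compact_lift ψ.range Γ Γ₀ hΓ hfin hc) U hU hinvU

/-- the automorphism `g ↦ (g⁻¹)ᵀ` -/
private def tau (n : ℕ) : SpecialLinearGroup (Fin n) ℝ →* SpecialLinearGroup (Fin n) ℝ where
  toFun g := (g⁻¹).transpose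
  map_one' := by
    apply Subtype.ext
    rw [Matrix.SpecialLinearGroup.coe_transpose, inv_one, Matrix.SpecialLinearGroup.coe_one,
      Matrix.transpose_one]
  map_mul' g h := by
    apply Subtype.ext
    rw [Matrix.SpecialLinearGroup.coe_transpose, Matrix.SpecialLinearGroup.coe_mul,
      Matrix.SpecialLinearGroup.coe_transpose, Matrix.SpecialLinearGroup.coe_transpose,
      _root_.mul_inv_rev, Matrix.SpecialLinearGroup.coe_mul, Matrix.transpose_mul]

private theorem tau_val {n : ℕ} (g : SpecialLinearGroup (Fin n) ℝ) :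
    (tau n g : Matrix (Fin n) (Fin n) ℝ) =
      ((g⁻¹ : SpecialLinearGroup (Fin n) ℝ) : Matrix (Fin n) (Fin n) ℝ)ᵀ := rfl

private theorem tau_tau {n : ℕ} (g : SpecialLinearGroup (Fin n) ℝ) : tau n (tau n g) = g := by
  apply Subtype.ext
  rw [tau_val, ← map_inv, tau_val, Matrix.transpose_transpose, inv_inv]

private theorem tau_cont (n : ℕ) : Continuous (tau n) := by
  refine continuous_induced_rng.2 ?_
  have h1 : Continuous fun g : SpecialLinearGroup (Fin n) ℝ =>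
      ((g⁻¹ : SpecialLinearGroup (Fin n) ℝ) : Matrix (Fin n) (Fin n) ℝ) :=
    continuous_subtype_val.comp continuous_inv
  exact h1.matrix_transpose

/-- the same for covectors -/
theorem main_dual (m n d k : ℕ) (hd : 0 < d) (hdn : d < n) (hk : 0 < k)
    (ψ : SpecialLinearGroup (Fin m) ℝ →* SpecialLinearGroup (Fin n) ℝ)
    (P : (Fin d → Fin n → ℝ) → ℝ) (hP : ContDiff ℝ 1 P) (hP0 : ∃ v, P v ≠ 0)
    (hinv : ∀ (x : SpecialLinearGroup (Fin m) ℝ) (v : Fin d → Fin n → ℝ),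
      P (fun j => (ψ x : Matrix (Fin n) (Fin n) ℝ)ᵀ *ᵥ v j) = P v)
    (hwt : ∀ (A : Matrix (Fin d) (Fin d) ℝ) (v : Fin d → Fin n → ℝ),
      P (fun j => ∑ i, A i j • v i) = A.det ^ k * P v)
    (Γ : Subgroup (SpecialLinearGroup (Fin n) ℝ))
    (hpd : ∀ K : Set (SpecialLinearGroup (Fin n) ℝ ⧸ ψ.range), IsCompact K →
      {γ : Γ | ∃ x ∈ K, γ • x ∈ K}.Finite)
    (hc : CompactSpace (MulAction.orbitRel.Quotient Γ (SpecialLinearGroup (Fin n) ℝ ⧸ ψ.range)))
    (Γ₀ : Subgroup (SpecialLinearGroup (Fin n) ℝ)) (hΓ : Γ₀ ≤ Γ) (hfin : Γ₀.relIndex Γ ≠ 0)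
    (U : Submodule ℝ (Fin n → ℝ)) (hU : finrank ℝ U + d = n)
    (hinvU : ∀ γ ∈ Γ₀, ∀ u ∈ U, (γ : Matrix (Fin n) (Fin n) ℝ) *ᵥ u ∈ U) : False := by
  classical
  have := sl_lc n
  set G := SpecialLinearGroup (Fin n) ℝ with hG
  set U' : Submodule ℝ (Fin n → ℝ) := U.dualAnnihilator.comap
    (dotProductEquiv ℝ (Fin n)).toLinearMap with hU'
  have hmem : ∀ v, v ∈ U' ↔ ∀ u ∈ U, v ⬝ᵥ u = 0 := by
    intro v
    rw [hU', Submodule.mem_comap, Submodule.mem_dualAnnihilator]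
    rfl
  have hfr : finrank ℝ U' = d := by
    have h1 : finrank ℝ U' = finrank ℝ U.dualAnnihilator := by
      have e := (dotProductEquiv ℝ (Fin n)).submoduleMap U'
      have h2 : Submodule.map (dotProductEquiv ℝ (Fin n)).toLinearMap U' = U.dualAnnihilator := by
        rw [hU']
        exact Submodule.map_comap_eq_of_surjective
          (f := (dotProductEquiv ℝ (Fin n)).toLinearMap) (dotProductEquiv ℝ (Fin n)).surjective _
      rw [e.finrank_eq, h2]
    have h2 := Subspace.finrank_add_finrank_dualAnnihilator_eq U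
    rw [finrank_fin_fun] at h2
    omega
  refine core m n d k hd hdn hk ((tau n).comp ψ) P hP hP0 ?_ hwt (Γ₀.map (tau n)) ?_ ?_ U' hfr ?_
  · intro x v
    have h1 := hinv x⁻¹ v
    rw [map_inv] at h1
    exact h1
  · intro K hK
    have h1 := pd_lift ψ.range Γ Γ₀ hΓ hpd (tau n '' K) (hK.image (tau_cont n))
    let f : Γ₀.map (tau n) → Γ₀ := fun γ => ⟨tau n γ, by
      obtain ⟨γ', hγ', h⟩ := γ.2
      rw [← h, tau_tau]
      exact hγ'⟩
    have hf : Function.Injective f := by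
      intro a b hab
      have h2 : tau n (a : G) = tau n (b : G) := congrArg Subtype.val hab
      apply Subtype.ext
      rw [← tau_tau (a : G), h2, tau_tau]
    refine (h1.preimage hf.injOn).subset ?_
    rintro γ ⟨g, hg, h, ⟨x, rfl⟩, hgh⟩
    refine ⟨tau n g, ⟨g, hg, rfl⟩, ψ x, ⟨x, rfl⟩, ⟨_, hgh, ?_⟩⟩
    rw [map_mul, map_mul]
    show tau n (γ : G) * tau n g * tau n (tau n (ψ x)) = _
    rw [tau_tau]
  · obtain ⟨C, hC, hCg⟩ := compact_lift ψ.range Γ Γ₀ hΓ hfin hc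
    refine ⟨tau n '' C, hC.image (tau_cont n), fun g => ?_⟩
    obtain ⟨γ, hγ, h, ⟨x, rfl⟩, hgh⟩ := hCg (tau n g)
    refine ⟨tau n γ, ⟨γ, hγ, rfl⟩, tau n (ψ x), ⟨x, rfl⟩, ⟨_, hgh, ?_⟩⟩
    rw [map_mul, map_mul, tau_tau]
  · rintro _ ⟨γ, hγ, rfl⟩ v hv
    rw [hmem] at hv ⊢
    intro u hu
    have h1 := hinvU γ⁻¹ (Γ₀.inv_mem hγ) u hu
    rw [tau_val, Matrix.mulVec_transpose, ← Matrix.dotProduct_mulVec]
    exact hv _ h1

end Pool.Agent.H9.IH
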