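import Mathlib

/-!
# Invariant subspaces of the standard embedding `SL(m, ℝ) → SL(n, ℝ)`
-/

set_option autoImplicit false

open Matrix Module

namespace Pool.Agent.H9.IH

theorem std_subspace {m n d : ℕ} (hmn : m ≤ n)
    (ψ : SpecialLinearGroup (Fin m) ℝ →* SpecialLinearGroup (Fin n) ℝ)
    (hψ : ∀ (x : SpecialLinearGroup (Fin m) ℝ) (i j : Fin n),
      (ψ x : Matrix (Fin n) (Fin n) ℝ) i j = if h : (i : ℕ) < m ∧ (j : ℕ) < m then
        (x : Matrix (Fin m) (Fin m) ℝ) ⟨i, h.1⟩ ⟨j, h.2⟩ else if i = j then 1 else 0)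
    (hdn : d ≤ n) (h : d ≤ n - m ∨ m ≤ d) :
    ∃ W : Submodule ℝ (Fin n → ℝ),
      (∀ x, ∀ w ∈ W, (ψ x : Matrix (Fin n) (Fin n) ℝ) *ᵥ w ∈ W) ∧ d + finrank ℝ W = n := by
  classical
  -- a set `T` of `n - d` indices, inside or containing the last / first ones
  obtain ⟨T, hTc, hT⟩ : ∃ T : Finset (Fin n), T.card = n - d ∧
      ((∀ i : Fin n, (i : ℕ) < m → i ∈ T) ∨ (∀ i ∈ T, m ≤ (i : ℕ))) := by
    rcases h with h | h
    · refine ⟨Finset.univ.filter fun i : Fin n => (i : ℕ) < n - d, ?_, Or.inl fun i hi => ?_⟩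
      · rw [Fin.card_filter_val_lt]
        omega
      · rw [Finset.mem_filter]
        exact ⟨Finset.mem_univ _, by omega⟩
    · refine ⟨Finset.univ.filter fun i : Fin n => d ≤ (i : ℕ), ?_, Or.inr fun i hi => ?_⟩
      · have h1 := Finset.card_filter_add_card_filter_not (s := (Finset.univ : Finset (Fin n)))
          (fun i : Fin n => (i : ℕ) < d)
        rw [Fin.card_filter_val_lt, Finset.card_univ, Fintype.card_fin] at h1
        simp only [not_lt] at h1
        omega
      · rw [Finset.mem_filter] at hi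
        omega
  set b : T → (Fin n → ℝ) := fun i => Pi.single (i : Fin n) 1 with hb
  have hbi : LinearIndependent ℝ b := by
    have h1 := (Pi.basisFun ℝ (Fin n)).linearIndependent.comp (fun i : T => (i : Fin n))
      Subtype.val_injective
    have h2 : (Pi.basisFun ℝ (Fin n) : Fin n → Fin n → ℝ) ∘ (fun i : T => (i : Fin n)) = b := by
      funext i
      simp [hb]
    rwa [h2] at h1
  refine ⟨Submodule.span ℝ (Set.range b), ?_, ?_⟩
  · intro x w hw
    induction hw using Submodule.span_induction with
    | zero => rw [Matrix.mulVec_zero]; exact Submodule.zero_mem _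
    | add u v _ _ hu hv => rw [Matrix.mulVec_add]; exact Submodule.add_mem _ hu hv
    | smul c u _ hu => rw [Matrix.mulVec_smul]; exact Submodule.smul_mem _ c hu
    | mem w hw =>
      obtain ⟨i, rfl⟩ := hw
      show (ψ x : Matrix (Fin n) (Fin n) ℝ) *ᵥ Pi.single (i : Fin n) 1 ∈ _
      rw [Matrix.mulVec_single_one]
      by_cases him : ((i : Fin n) : ℕ) < m
      · -- all indices `< m` lie in `T`
        have hT' : ∀ j : Fin n, (j : ℕ) < m → j ∈ T := by
          rcases hT with hT | hT
          · exact hT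
          · exact absurd (hT i i.2) (not_le.2 him)
        have h1 : (ψ x : Matrix (Fin n) (Fin n) ℝ).col (i : Fin n) =
            ∑ j : Fin n, (ψ x : Matrix (Fin n) (Fin n) ℝ) j i • (Pi.single j 1 : Fin n → ℝ) := by
          ext j
          simp [Matrix.col, Finset.sum_apply, Pi.single_apply]
        rw [h1]
        refine Submodule.sum_mem _ fun j _ => ?_
        by_cases hj : (j : ℕ) < m
        · exact Submodule.smul_mem _ _ (Submodule.subset_span ⟨⟨j, hT' j hj⟩, rfl⟩)
        · have h2 : (ψ x : Matrix (Fin n) (Fin n) ℝ) j i = 0 := by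
            rw [hψ, dif_neg (by tauto), if_neg]
            intro h3
            rw [h3] at hj
            exact hj him
          rw [h2, zero_smul]
          exact Submodule.zero_mem _
      · have h1 : (ψ x : Matrix (Fin n) (Fin n) ℝ).col (i : Fin n) = Pi.single (i : Fin n) 1 := by
          ext j
          show (ψ x : Matrix (Fin n) (Fin n) ℝ) j i = _
          rw [hψ, dif_neg (by tauto), Pi.single_apply]
        rw [h1]
        exact Submodule.subset_span ⟨i, rfl⟩
  · rw [finrank_span_eq_card hbi, Fintype.card_coe, hTc]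
    omega

end Pool.Agent.H9.IH
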