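import Mathlib
import Pool.Agent.H21.CQ.Perf

/-!
# Relative invariants from invariant subspaces
-/

set_option autoImplicit false

open Matrix Module

namespace Pool.Agent.H9.IH

theorem rel_of_subspace {m n d : ℕ} (ψ : SpecialLinearGroup (Fin m) ℝ →* SpecialLinearGroup (Fin n) ℝ)
    (W : Submodule ℝ (Fin n → ℝ))
    (hW : ∀ x, ∀ w ∈ W, (ψ x : Matrix (Fin n) (Fin n) ℝ) *ᵥ w ∈ W)
    (hd : d + finrank ℝ W = n) :
    ∃ P : (Fin d → Fin n → ℝ) → ℝ, ContDiff ℝ 1 P ∧ (∃ v, P v ≠ 0) ∧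
      (∀ (x : SpecialLinearGroup (Fin m) ℝ) (v : Fin d → Fin n → ℝ),
        P (fun j => (ψ x : Matrix (Fin n) (Fin n) ℝ) *ᵥ v j) = P v) ∧
      ∀ (A : Matrix (Fin d) (Fin d) ℝ) (v : Fin d → Fin n → ℝ),
        P (fun j => ∑ i, A i j • v i) = A.det ^ 2 * P v := by
  classical
  -- the quotient map
  have hq : finrank ℝ ((Fin n → ℝ) ⧸ W) = finrank ℝ (Fin d → ℝ) := by
    have h := Submodule.finrank_quotient_add_finrank W
    rw [finrank_fin_fun] at h ⊢
    omega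
  let e : ((Fin n → ℝ) ⧸ W) ≃ₗ[ℝ] (Fin d → ℝ) := LinearEquiv.ofFinrankEq _ _ hq
  let t : (Fin n → ℝ) →ₗ[ℝ] (Fin d → ℝ) := e.toLinearMap.comp W.mkQ
  have hts : Function.Surjective t := e.surjective.comp W.mkQ_surjective
  obtain ⟨r, hr⟩ := t.exists_rightInverse_of_surjective (LinearMap.range_eq_top.2 hts)
  have htk : ∀ x, t x = 0 ↔ x ∈ W := by
    intro x
    show e (W.mkQ x) = 0 ↔ x ∈ W
    rw [map_eq_zero_iff e e.injective, Submodule.mkQ_apply, Submodule.Quotient.mk_eq_zero]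
  let T : Matrix (Fin d) (Fin n) ℝ := LinearMap.toMatrix' t
  let R : Matrix (Fin n) (Fin d) ℝ := LinearMap.toMatrix' r
  have hTv : ∀ x, T *ᵥ x = t x := fun x => by
    rw [← Matrix.toLin'_apply, Matrix.toLin'_toMatrix']
  have hTR : T * R = 1 := by
    have h := congrArg LinearMap.toMatrix' hr
    rwa [LinearMap.toMatrix'_comp, LinearMap.toMatrix'_id] at h
  -- the action on the quotient
  let C : SpecialLinearGroup (Fin m) ℝ → Matrix (Fin d) (Fin d) ℝ := fun x =>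
    T * (ψ x : Matrix (Fin n) (Fin n) ℝ) * R
  have hC : ∀ x, T * (ψ x : Matrix (Fin n) (Fin n) ℝ) = C x * T := by
    intro x
    apply Matrix.ext_of_mulVec_single
    intro i
    set y : Fin n → ℝ := Pi.single i 1 with hy
    have h1 : T *ᵥ (y - R *ᵥ (T *ᵥ y)) = 0 := by
      rw [Matrix.mulVec_sub, Matrix.mulVec_mulVec, hTR, Matrix.one_mulVec, sub_self]
    have h2 : y - R *ᵥ (T *ᵥ y) ∈ W := by rw [← htk, ← hTv, h1]
    have h3 : T *ᵥ ((ψ x : Matrix (Fin n) (Fin n) ℝ) *ᵥ (y - R *ᵥ (T *ᵥ y))) = 0 := by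
      rw [hTv, htk]
      exact hW x _ h2
    rw [Matrix.mulVec_sub, Matrix.mulVec_sub, sub_eq_zero] at h3
    show (T * (ψ x : Matrix (Fin n) (Fin n) ℝ)) *ᵥ y =
      (T * (ψ x : Matrix (Fin n) (Fin n) ℝ) * R * T) *ᵥ y
    rw [← Matrix.mulVec_mulVec, h3]
    simp only [Matrix.mulVec_mulVec, Matrix.mul_assoc]
  have hC1 : C 1 = 1 := by
    show T * ((ψ 1 : SpecialLinearGroup (Fin n) ℝ) : Matrix (Fin n) (Fin n) ℝ) * R = 1
    rw [map_one, Matrix.SpecialLinearGroup.coe_one, Matrix.mul_one, hTR]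
  have hCm : ∀ x y, C (x * y) = C x * C y := by
    intro x y
    show T * ((ψ (x * y) : SpecialLinearGroup (Fin n) ℝ) : Matrix (Fin n) (Fin n) ℝ) * R = _
    rw [map_mul, Matrix.SpecialLinearGroup.coe_mul, ← Matrix.mul_assoc, hC x, Matrix.mul_assoc,
      Matrix.mul_assoc]
    show C x * (T * ((ψ y : Matrix (Fin n) (Fin n) ℝ) * R)) =
      C x * (T * (ψ y : Matrix (Fin n) (Fin n) ℝ) * R)
    rw [Matrix.mul_assoc T]
  let χ : SpecialLinearGroup (Fin m) ℝ →* ℝ :=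
    { toFun := fun x => (C x).det ^ 2
      map_one' := by rw [hC1, Matrix.det_one, one_pow]
      map_mul' := fun x y => by rw [hCm, Matrix.det_mul, mul_pow] }
  have hχ : ∀ x, 0 < χ x := by
    intro x
    have h1 : χ x * χ x⁻¹ = 1 := by rw [← map_mul, mul_inv_cancel, map_one]
    have h2 : 0 ≤ χ x := sq_nonneg (C x).det
    rcases h2.lt_or_eq with h | h
    · exact h
    · rw [← h, zero_mul] at h1
      exact absurd h1 zero_ne_one
  have hχ1 : ∀ x, (C x).det ^ 2 = 1 := fun x => Pool.Agent.H21.CQ.chi_eq_one χ hχ x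
  refine ⟨fun v => (T * (Matrix.of v)ᵀ).det ^ 2, ?_, ⟨Rᵀ, ?_⟩, ?_, ?_⟩
  · refine ContDiff.pow ?_ 2
    simp only [Matrix.det_apply]
    refine ContDiff.sum fun σ _ => ?_
    refine ContDiff.const_smul _ ?_
    refine contDiff_prod fun i _ => ?_
    simp only [Matrix.mul_apply, Matrix.transpose_apply, Matrix.of_apply]
    refine ContDiff.sum fun j _ => ?_
    refine contDiff_const.mul ?_
    exact contDiff_apply_apply ℝ ℝ i j
  · show (T * (Matrix.of (Rᵀ : Matrix (Fin d) (Fin n) ℝ))ᵀ).det ^ 2 ≠ 0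
    have h1 : (Matrix.of (Rᵀ : Matrix (Fin d) (Fin n) ℝ))ᵀ = R := rfl
    rw [h1, hTR, Matrix.det_one, one_pow]
    exact one_ne_zero
  · intro x v
    show (T * (Matrix.of fun j => (ψ x : Matrix (Fin n) (Fin n) ℝ) *ᵥ v j)ᵀ).det ^ 2 =
      (T * (Matrix.of v)ᵀ).det ^ 2
    have h1 : (Matrix.of fun j => (ψ x : Matrix (Fin n) (Fin n) ℝ) *ᵥ v j)ᵀ =
        (ψ x : Matrix (Fin n) (Fin n) ℝ) * (Matrix.of v)ᵀ := by
      ext i j
      rw [Matrix.mul_apply]
      rfl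
    rw [h1, ← Matrix.mul_assoc, hC, Matrix.mul_assoc, Matrix.det_mul, mul_pow, hχ1, one_mul]
  · intro A v
    show (T * (Matrix.of fun j => ∑ i, A i j • v i)ᵀ).det ^ 2 =
      A.det ^ 2 * (T * (Matrix.of v)ᵀ).det ^ 2
    have h1 : (Matrix.of fun j => ∑ i, A i j • v i)ᵀ = (Matrix.of v)ᵀ * A := by
      ext i j
      rw [Matrix.mul_apply, Matrix.transpose_apply, Matrix.of_apply, Finset.sum_apply]
      refine Finset.sum_congr rfl fun p _ => ?_
      rw [Pi.smul_apply, smul_eq_mul, mul_comm]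
      rfl
    rw [h1, ← Matrix.mul_assoc, Matrix.det_mul, mul_pow, mul_comm]

end Pool.Agent.H9.IH
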